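import Mathlib

/-!
# The Laplacians of test functions are dense in the square integrable functions
-/

open MeasureTheory Filter
open scoped ContDiff Topology Convolution

namespace Pool.Agent.Run7.h897

set_option linter.unusedSectionVars false
set_option linter.unusedVariables false

noncomputable section

variable {d : ℕ}

/-- smooth functions of compact support -/
structure Cc (φ : (Fin d → ℝ) → ℝ) : Prop where
  sm : ContDiff ℝ ∞ φ
  cs : HasCompactSupport φ

/-- partial derivative -/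
def pd (i : Fin d) (φ : (Fin d → ℝ) → ℝ) (x : Fin d → ℝ) : ℝ := fderiv ℝ φ x (Pi.single i 1)

/-- minus the Laplacian -/
def mlap (φ : (Fin d → ℝ) → ℝ) (x : Fin d → ℝ) : ℝ := -∑ i, pd i (pd i φ) x

lemma Cc.pd {φ : (Fin d → ℝ) → ℝ} (h : Cc φ) (i : Fin d) : Cc (pd i φ) := by
  refine ⟨?_, ?_⟩
  · have h1 : ContDiff ℝ ∞ (fderiv ℝ φ) := h.sm.fderiv_right (by simp)
    exact h1.clm_apply contDiff_const
  · have h1 := h.cs.fderiv (𝕜 := ℝ)
    exact h1.comp_left (g := fun L : (Fin d → ℝ) →L[ℝ] ℝ => L (Pi.single i 1)) rfl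

lemma Cc.cont {φ : (Fin d → ℝ) → ℝ} (h : Cc φ) : Continuous φ := h.sm.continuous

lemma Cc.diff {φ : (Fin d → ℝ) → ℝ} (h : Cc φ) : Differentiable ℝ φ :=
  h.sm.differentiable (by simp)

lemma Cc.add {φ ψ : (Fin d → ℝ) → ℝ} (h : Cc φ) (h' : Cc ψ) : Cc (fun x => φ x + ψ x) :=
  ⟨h.sm.add h'.sm, h.cs.add h'.cs⟩

lemma Cc.smul {φ : (Fin d → ℝ) → ℝ} (c : ℝ) (h : Cc φ) : Cc (fun x => c * φ x) :=
  ⟨contDiff_const.mul h.sm, h.cs.mul_left⟩

lemma Cc.neg {φ : (Fin d → ℝ) → ℝ} (h : Cc φ) : Cc (fun x => -φ x) := by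
  have := h.smul (-1)
  simpa using this

lemma Cc.sum {ι : Type*} (s : Finset ι) {φ : ι → (Fin d → ℝ) → ℝ} (h : ∀ i ∈ s, Cc (φ i)) :
    Cc (fun x => ∑ i ∈ s, φ i x) := by
  classical
  induction s using Finset.induction_on with
  | empty =>
    simp only [Finset.sum_empty]
    exact ⟨contDiff_const, HasCompactSupport.zero⟩
  | insert a s ha ih =>
    simp only [Finset.sum_insert ha]
    exact (h a (Finset.mem_insert_self _ _)).add
      (ih fun i hi => h i (Finset.mem_insert_of_mem hi))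

lemma pd_add {φ ψ : (Fin d → ℝ) → ℝ} (h : Cc φ) (h' : Cc ψ) (i : Fin d) :
    pd i (fun x => φ x + ψ x) = fun x => pd i φ x + pd i ψ x := by
  funext x
  unfold pd
  rw [fderiv_fun_add (h.diff x) (h'.diff x)]
  rfl

lemma pd_smul {φ : (Fin d → ℝ) → ℝ} (c : ℝ) (h : Cc φ) (i : Fin d) :
    pd i (fun x => c * φ x) = fun x => c * pd i φ x := by
  funext x
  unfold pd
  rw [fderiv_const_mul (h.diff x)]
  rfl

lemma Cc.mlap {φ : (Fin d → ℝ) → ℝ} (h : Cc φ) : Cc (mlap φ) :=
  (Cc.sum Finset.univ fun i _ => (h.pd i).pd i).neg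

lemma mlap_add {φ ψ : (Fin d → ℝ) → ℝ} (h : Cc φ) (h' : Cc ψ) :
    mlap (fun x => φ x + ψ x) = fun x => mlap φ x + mlap ψ x := by
  funext x
  unfold mlap
  simp only [pd_add h h', pd_add (h.pd _) (h'.pd _)]
  rw [Finset.sum_add_distrib]; ring

lemma mlap_smul {φ : (Fin d → ℝ) → ℝ} (c : ℝ) (h : Cc φ) :
    mlap (fun x => c * φ x) = fun x => c * mlap φ x := by
  funext x
  unfold mlap
  simp only [pd_smul c h, pd_smul c (h.pd _)]
  rw [← Finset.mul_sum]; ring

/-- the convolution -/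
def cv (h ρ : (Fin d → ℝ) → ℝ) (x : Fin d → ℝ) : ℝ := ∫ y, h y * ρ (x - y)

lemma cv_eq (h ρ : (Fin d → ℝ) → ℝ) :
    cv h ρ = (h ⋆[ContinuousLinearMap.mul ℝ ℝ, volume] ρ) := rfl

variable {h : (Fin d → ℝ) → ℝ}

lemma cv_cont {ρ : (Fin d → ℝ) → ℝ} (hl : LocallyIntegrable h volume) (hc : Continuous ρ)
    (hs : HasCompactSupport ρ) : Continuous (cv h ρ) := by
  rw [cv_eq]
  exact hs.continuous_convolution_right _ hl hc

lemma cv_fderiv {ρ : (Fin d → ℝ) → ℝ} (hl : LocallyIntegrable h volume) (hρ : Cc ρ)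
    (x v : Fin d → ℝ) : fderiv ℝ (cv h ρ) x v = cv h (fun y => fderiv ℝ ρ y v) x := by
  have h1 := hρ.cs.hasFDerivAt_convolution_right (ContinuousLinearMap.mul ℝ ℝ) hl
    (hρ.sm.of_le (by simp)) x
  rw [cv_eq, h1.fderiv, cv_eq]
  exact convolution_precompR_apply _ hl (hρ.cs.fderiv (𝕜 := ℝ))
    (hρ.sm.continuous_fderiv (by simp)) x v

lemma cv_diff {ρ : (Fin d → ℝ) → ℝ} (hl : LocallyIntegrable h volume) (hρ : Cc ρ) :
    Differentiable ℝ (cv h ρ) := fun x => by
  have h1 := hρ.cs.hasFDerivAt_convolution_right (ContinuousLinearMap.mul ℝ ℝ) hl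
    (hρ.sm.of_le (by simp)) x
  rw [cv_eq]
  exact h1.differentiableAt

/-- the convolution of a square integrable function with a test function -/
lemma cv_memLp {ρ : (Fin d → ℝ) → ℝ} (hh : MemLp h 2 volume) (hρ : Cc ρ) :
    MemLp (cv h ρ) 2 volume := by
  have hl : LocallyIntegrable h volume := hh.locallyIntegrable (by norm_num)
  have hc := cv_cont hl hρ.cont hρ.cs
  rw [memLp_two_iff_integrable_sq hc.aestronglyMeasurable]
  have h2 : Integrable (fun y => h y ^ 2) volume := hh.integrable_sq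
  have hr : Integrable (fun y => |ρ y|) volume :=
    (hρ.cont.abs).integrable_of_hasCompactSupport (by
      have := hρ.cs.comp_left (g := fun t : ℝ => |t|) (by simp)
      exact this)
  have h3 := h2.integrable_convolution (ContinuousLinearMap.mul ℝ ℝ) hr
  have hI : ∀ x, Integrable (fun y => h y ^ 2 * |ρ (x - y)|) volume := fun x => by
    have := (HasCompactSupport.convolutionExists_right (ContinuousLinearMap.mul ℝ ℝ)
      (f := fun y => h y ^ 2) (g := fun y => |ρ y|) (μ := volume)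
      (hρ.cs.comp_left (g := fun t : ℝ => |t|) (by simp)) h2.locallyIntegrable hρ.cont.abs x)
    exact this
  have hI1 : ∀ x, Integrable (fun y => h y * |ρ (x - y)|) volume := fun x => by
    have := (HasCompactSupport.convolutionExists_right (ContinuousLinearMap.mul ℝ ℝ)
      (f := h) (g := fun y => |ρ y|) (μ := volume)
      (hρ.cs.comp_left (g := fun t : ℝ => |t|) (by simp)) hl hρ.cont.abs x)
    exact this
  have hI2 : ∀ x, Integrable (fun y => h y * ρ (x - y)) volume := fun x => by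
    have := (HasCompactSupport.convolutionExists_right (ContinuousLinearMap.mul ℝ ℝ)
      (f := h) (g := ρ) (μ := volume) hρ.cs hl hρ.cont x)
    exact this
  have hI0 : ∀ x, Integrable (fun y => |ρ (x - y)|) volume := fun x =>
    (hr.comp_sub_left x)
  have hm : ∀ x, (∫ y, |ρ (x - y)|) = ∫ y, |ρ y| := fun x =>
    integral_sub_left_eq_self (fun y => |ρ y|) volume x
  obtain ⟨m, hmd⟩ : ∃ m, m = ∫ y, |ρ y| := ⟨_, rfl⟩
  have hm0 : 0 ≤ m := by rw [hmd]; exact integral_nonneg fun y => abs_nonneg _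
  have key : ∀ x, cv h ρ x ^ 2 ≤ m * ∫ y, h y ^ 2 * |ρ (x - y)| := by
    intro x
    obtain ⟨u, hu⟩ : ∃ u, u = ∫ y, h y ^ 2 * |ρ (x - y)| := ⟨_, rfl⟩
    have hu0 : 0 ≤ u := by
      rw [hu]; exact integral_nonneg fun y => mul_nonneg (sq_nonneg _) (abs_nonneg _)
    -- for all real `c`, with the sign of `ρ`
    have h5 : ∀ c : ℝ, 2 * c * cv h ρ x ≤ u + c ^ 2 * m := by
      intro c
      have h6 : ∫ y, 2 * c * (h y * ρ (x - y)) ≤
          ∫ y, (h y ^ 2 * |ρ (x - y)| + c ^ 2 * |ρ (x - y)|) := by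
        refine integral_mono ((hI2 x).const_mul _) ((hI x).add ((hI0 x).const_mul _)) fun y => ?_
        have h7 : 2 * (c * h y) * ρ (x - y) ≤ |2 * (c * h y)| * |ρ (x - y)| := by
          rw [← abs_mul]; exact le_abs_self _
        have h8 : |2 * (c * h y)| ≤ h y ^ 2 + c ^ 2 := by
          rw [abs_le]
          constructor <;> nlinarith [sq_nonneg (h y - c), sq_nonneg (h y + c)]
        have h9 : |2 * (c * h y)| * |ρ (x - y)| ≤ (h y ^ 2 + c ^ 2) * |ρ (x - y)| :=
          mul_le_mul_of_nonneg_right h8 (abs_nonneg _)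
        calc 2 * c * (h y * ρ (x - y)) = 2 * (c * h y) * ρ (x - y) := by ring
          _ ≤ (h y ^ 2 + c ^ 2) * |ρ (x - y)| := h7.trans h9
          _ = _ := by ring
      rw [integral_const_mul, integral_add (hI x) ((hI0 x).const_mul _), integral_const_mul,
        hm x, ← hmd, ← hu] at h6
      exact h6
    rcases hm0.eq_or_lt with h0 | h0
    · have h6 : cv h ρ x = 0 := by
        by_contra hne
        have h7 := h5 ((u + 1) / cv h ρ x)
        rw [← h0, mul_zero, add_zero] at h7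
        have h8 : 2 * ((u + 1) / cv h ρ x) * cv h ρ x = 2 * (u + 1) := by field_simp
        linarith
      rw [h6, ← h0]; simp
    · have h6 := h5 (cv h ρ x / m)
      have h7 : 2 * (cv h ρ x / m) * cv h ρ x = 2 * (cv h ρ x ^ 2 / m) := by ring
      have h8 : (cv h ρ x / m) ^ 2 * m = cv h ρ x ^ 2 / m := by field_simp
      rw [h7, h8] at h6
      have h9 : cv h ρ x ^ 2 / m ≤ u := by linarith
      rw [div_le_iff₀ h0] at h9
      rw [← hu]; linarith
  refine (h3.const_mul m).mono' (hc.pow 2).aestronglyMeasurable (Eventually.of_forall fun x => ?_)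
  rw [Real.norm_eq_abs, abs_of_nonneg (sq_nonneg _)]
  exact key x

lemma memLp_mul {f g : (Fin d → ℝ) → ℝ} (hf : MemLp f 2 volume) (hg : MemLp g 2 volume) :
    Integrable (fun x => f x * g x) volume := hf.integrable_mul hg

lemma cv_neg_sum {ι : Type*} (s : Finset ι) {ρ : ι → (Fin d → ℝ) → ℝ} (hl : LocallyIntegrable h volume)
    (hρ : ∀ i ∈ s, Cc (ρ i)) (x : Fin d → ℝ) :
    cv h (fun y => ∑ i ∈ s, ρ i y) x = ∑ i ∈ s, cv h (ρ i) x := by
  unfold cv
  simp only [Finset.mul_sum]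
  refine integral_finsetSum _ fun i hi => ?_
  exact HasCompactSupport.convolutionExists_right (ContinuousLinearMap.mul ℝ ℝ)
      (f := h) (g := ρ i) (μ := volume) (hρ i hi).cs hl (hρ i hi).cont x

/-- partial derivatives of reflected translates -/
lemma pd_refl {ρ : (Fin d → ℝ) → ℝ} (hρ : Cc ρ) (x : Fin d → ℝ) (i : Fin d) :
    pd i (fun y => ρ (x - y)) = fun y => -pd i ρ (x - y) := by
  funext y
  unfold pd
  have h1 : HasFDerivAt (fun y => ρ (x - y))
      ((fderiv ℝ ρ (x - y)).comp (-(ContinuousLinearMap.id ℝ (Fin d → ℝ)))) y := by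
    have h2 : HasFDerivAt (fun y : Fin d → ℝ => x - y) (-(ContinuousLinearMap.id ℝ (Fin d → ℝ))) y :=
      (hasFDerivAt_id y).const_sub x
    exact (hρ.diff (x - y)).hasFDerivAt.comp y h2
  rw [h1.fderiv]
  simp

lemma Cc.refl {ρ : (Fin d → ℝ) → ℝ} (hρ : Cc ρ) (x : Fin d → ℝ) : Cc fun y => ρ (x - y) := by
  refine ⟨hρ.sm.comp (contDiff_const.sub contDiff_id), ?_⟩
  exact hρ.cs.comp_homeomorph (Homeomorph.subLeft x)

lemma mlap_refl {ρ : (Fin d → ℝ) → ℝ} (hρ : Cc ρ) (x : Fin d → ℝ) :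
    mlap (fun y => ρ (x - y)) = fun y => mlap ρ (x - y) := by
  funext y
  unfold mlap
  congr 1
  refine Finset.sum_congr rfl fun i _ => ?_
  rw [pd_refl hρ x i]
  have h1 : (fun y => -pd i ρ (x - y)) = fun y => (-1) * pd i ρ (x - y) := by
    funext y; ring
  rw [h1, pd_smul (-1) ((hρ.pd i).refl x) i, pd_refl (hρ.pd i) x i]
  simp

/-- a square integrable function orthogonal to all Laplacians vanishes -/
theorem orth_zero (hd : 0 < d) (hh : MemLp h 2 volume)
    (ho : ∀ φ : (Fin d → ℝ) → ℝ, Cc φ → ∫ x, h x * mlap φ x = 0) : ∀ᵐ x ∂volume, h x = 0 := by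
  have hl : LocallyIntegrable h volume := hh.locallyIntegrable (by norm_num)
  have hz : ∀ ρ : (Fin d → ℝ) → ℝ, Cc ρ → ∀ x, cv h ρ x = 0 := by
    intro ρ hρ
    have hpd : ∀ (σ : (Fin d → ℝ) → ℝ), Cc σ → ∀ i x, fderiv ℝ (cv h σ) x (Pi.single i 1) =
        cv h (pd i σ) x := fun σ hσ i x => cv_fderiv hl hσ x _
    -- the energy identity
    have hE : ∑ i, ∫ x, cv h (pd i ρ) x ^ 2 = 0 := by
      have h1 : ∀ i, ∫ x, cv h ρ x * cv h (pd i (pd i ρ)) x = -∫ x, cv h (pd i ρ) x ^ 2 := by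
        intro i
        have h2 := integral_mul_fderiv_eq_neg_fderiv_mul_of_integrable (μ := volume)
          (f := cv h ρ) (g := cv h (pd i ρ)) (v := (Pi.single i 1 : Fin d → ℝ))
          (by simp only [hpd ρ hρ]
              exact memLp_mul (cv_memLp hh (hρ.pd i)) (cv_memLp hh (hρ.pd i)))
          (by simp only [hpd _ (hρ.pd i)]
              exact memLp_mul (cv_memLp hh hρ) (cv_memLp hh ((hρ.pd i).pd i)))
          (memLp_mul (cv_memLp hh hρ) (cv_memLp hh (hρ.pd i)))
          (fun x _ => cv_diff hl hρ x) (fun x _ => cv_diff hl (hρ.pd i) x)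
        simp only [hpd ρ hρ, hpd _ (hρ.pd i)] at h2
        rw [h2]
        congr 1
        refine integral_congr_ae (Eventually.of_forall fun x => ?_)
        simp only [sq]
      have h2 : ∑ i, ∫ x, cv h ρ x * cv h (pd i (pd i ρ)) x = 0 := by
        rw [← integral_finsetSum _ fun i _ =>
          memLp_mul (cv_memLp hh hρ) (cv_memLp hh ((hρ.pd i).pd i))]
        have h3 : ∀ x, ∑ i, cv h ρ x * cv h (pd i (pd i ρ)) x = 0 := by
          intro x
          rw [← Finset.mul_sum, ← cv_neg_sum Finset.univ hl fun i _ => (hρ.pd i).pd i]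
          have h4 := ho (fun y => ρ (x - y)) (hρ.refl x)
          rw [mlap_refl hρ x] at h4
          have h5 : cv h (fun y => ∑ i, pd i (pd i ρ) y) x = -∫ y, h y * mlap ρ (x - y) := by
            unfold cv mlap
            rw [← integral_neg]
            refine integral_congr_ae (Eventually.of_forall fun y => ?_)
            simp only
            ring
          rw [h5, h4, neg_zero, mul_zero]
        simp only [h3, integral_zero]
      rw [Finset.sum_congr rfl fun i _ => h1 i, Finset.sum_neg_distrib, neg_eq_zero] at h2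
      exact h2
    have hi : ∀ i, ∀ x, cv h (pd i ρ) x = 0 := by
      intro i
      have h1 : ∫ x, cv h (pd i ρ) x ^ 2 = 0 :=
        (Finset.sum_eq_zero_iff_of_nonneg fun i _ => integral_nonneg fun x => sq_nonneg _).1 hE i
          (Finset.mem_univ i)
      have h2 := (integral_eq_zero_iff_of_nonneg (fun x => sq_nonneg _)
        (cv_memLp hh (hρ.pd i)).integrable_sq).1 h1
      have h3 : cv h (pd i ρ) =ᵐ[volume] fun _ => (0 : ℝ) := by
        filter_upwards [h2] with x hx
        exact pow_eq_zero_iff two_ne_zero |>.1 hx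
      have h4 := Continuous.ae_eq_iff_eq volume (cv_cont hl (hρ.pd i).cont (hρ.pd i).cs)
        continuous_const |>.1 h3
      exact fun x => congrFun h4 x
    -- the convolution is constant
    have hf : ∀ x, fderiv ℝ (cv h ρ) x = 0 := by
      intro x
      ext v
      have hv : v = ∑ i, v i • (Pi.single i 1 : Fin d → ℝ) := by
        funext j
        simp [Finset.sum_apply, Pi.single_apply]
      rw [hv, map_sum]
      simp only [map_smul, hpd ρ hρ, hi, smul_zero, Finset.sum_const_zero]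
      rfl
    have hconst : ∀ x, cv h ρ x = cv h ρ 0 := fun x =>
      is_const_of_fderiv_eq_zero (cv_diff hl hρ) hf x 0
    have h1 := (cv_memLp hh hρ).integrable_sq
    simp only [hconst] at h1
    rw [integrable_const_iff] at h1
    have h2 : cv h ρ 0 = 0 := by
      rcases h1 with h1 | h1
      · exact pow_eq_zero_iff two_ne_zero |>.1 h1
      · exfalso
        have h3 : Nonempty (Fin d) := ⟨⟨0, hd⟩⟩
        have h4 : (volume : Measure (Fin d → ℝ)) Set.univ = ⊤ := by
          exact measure_univ_of_isAddLeftInvariant _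
        rw [isFiniteMeasure_iff, h4] at h1
        exact lt_irrefl _ h1
    intro x; rw [hconst, h2]
  refine ae_eq_zero_of_integral_contDiff_smul_eq_zero hl fun g hg hgs => ?_
  have h1 := hz (fun y => g (-y)) ⟨hg.comp contDiff_neg, hgs.comp_homeomorph (Homeomorph.neg _)⟩ 0
  unfold cv at h1
  simp only [zero_sub, neg_neg] at h1
  rw [← h1]
  refine integral_congr_ae (Eventually.of_forall fun x => ?_)
  simp only [smul_eq_mul]
  ring

/-- **density of the Laplacians** -/
theorem lap_dense (hd : 0 < d) {g : (Fin d → ℝ) → ℝ} (hg : MemLp g 2 volume) {δ : ℝ}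
    (hδ : 0 < δ) : ∃ φ : (Fin d → ℝ) → ℝ, Cc φ ∧ ∫ x, (g x - mlap φ x) ^ 2 ≤ δ := by
  have hmem : ∀ φ : (Fin d → ℝ) → ℝ, Cc φ → MemLp (mlap φ) 2 (volume : Measure (Fin d → ℝ)) :=
    fun φ hφ => hφ.mlap.cont.memLp_of_hasCompactSupport hφ.mlap.cs
  let W : Submodule ℝ (Lp ℝ 2 (volume : Measure (Fin d → ℝ))) :=
    { carrier := {u | ∃ φ : (Fin d → ℝ) → ℝ, Cc φ ∧ u =ᵐ[volume] mlap φ}
      add_mem' := by
        rintro u v ⟨φ, hφ, hu⟩ ⟨ψ, hψ, hv⟩
        refine ⟨_, hφ.add hψ, ?_⟩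
        rw [mlap_add hφ hψ]
        filter_upwards [Lp.coeFn_add u v, hu, hv] with x h1 h2 h3
        rw [h1, Pi.add_apply, h2, h3]
      zero_mem' := by
        refine ⟨fun _ => 0, ⟨contDiff_const, HasCompactSupport.zero⟩, ?_⟩
        have h1 : mlap (fun _ : Fin d → ℝ => (0 : ℝ)) = fun _ => 0 := by
          have h2 := mlap_smul (d := d) 0 (φ := fun _ => 0) ⟨contDiff_const, HasCompactSupport.zero⟩
          simpa using h2
        rw [h1]
        exact Lp.coeFn_zero _ _ _
      smul_mem' := by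
        rintro c u ⟨φ, hφ, hu⟩
        refine ⟨_, hφ.smul c, ?_⟩
        rw [mlap_smul c hφ]
        filter_upwards [Lp.coeFn_smul c u, hu] with x h1 h2
        rw [h1, Pi.smul_apply, h2, smul_eq_mul] }
  have hW : W.topologicalClosure = ⊤ := by
    rw [Submodule.topologicalClosure_eq_top_iff, Submodule.eq_bot_iff]
    intro u hu
    rw [Submodule.mem_orthogonal] at hu
    have h1 : ∀ φ : (Fin d → ℝ) → ℝ, Cc φ → ∫ x, (u : (Fin d → ℝ) → ℝ) x * mlap φ x = 0 := by
      intro φ hφ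
      have h2 := hu ((hmem φ hφ).toLp _) ⟨φ, hφ, MemLp.coeFn_toLp _⟩
      rw [L2.inner_def] at h2
      rw [← h2]
      refine integral_congr_ae ?_
      filter_upwards [MemLp.coeFn_toLp (hmem φ hφ)] with x h3
      rw [h3]
      simp [mul_comm]
    have h2 : (u : (Fin d → ℝ) → ℝ) =ᵐ[volume] (0 : (Fin d → ℝ) → ℝ) :=
      orth_zero hd (Lp.memLp u) h1
    exact Lp.ext (h2.trans (Lp.coeFn_zero ℝ 2 volume).symm)
  have h1 : hg.toLp g ∈ W.topologicalClosure := by rw [hW]; trivial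
  have h2 : hg.toLp g ∈ closure (W : Set (Lp ℝ 2 (volume : Measure (Fin d → ℝ)))) := h1
  rw [Metric.mem_closure_iff] at h2
  obtain ⟨u, ⟨φ, hφ, hu⟩, hdist⟩ := h2 (Real.sqrt δ) (Real.sqrt_pos.2 hδ)
  refine ⟨φ, hφ, ?_⟩
  have h3 : ∫ x, (g x - mlap φ x) ^ 2 = ‖hg.toLp g - u‖ ^ 2 := by
    rw [← real_inner_self_eq_norm_sq, L2.inner_def]
    refine integral_congr_ae ?_
    filter_upwards [Lp.coeFn_sub (hg.toLp g) u, hg.coeFn_toLp, hu] with x h4 h5 h6
    rw [h4, Pi.sub_apply, h5, h6]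
    simp [sq]
  rw [h3, ← dist_eq_norm]
  calc dist (hg.toLp g) u ^ 2 ≤ Real.sqrt δ ^ 2 :=
        pow_le_pow_left₀ dist_nonneg hdist.le 2
    _ = δ := Real.sq_sqrt hδ.le

end

end Pool.Agent.Run7.h897
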