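import Mathlib
import Pool.Agent.Run7.h897.Lap
import Pool.Agent.W793.YM.Lat2

/-!
# Riemann sums and sampling of functions on the periodic lattice
-/

open MeasureTheory Filter
open scoped ContDiff Topology Pointwise
open Pool.Agent.H906R3.YM Pool.Agent.W793.YM

namespace Pool.Agent.Run7.h897

set_option linter.unusedSectionVars false
set_option linter.unusedVariables false

noncomputable section

variable {d : ℕ}

/-! ### Riemann sums -/

/-- the lattice point `z / q` -/
def sc (q : ℕ) (z : Fin d → ℤ) : Fin d → ℝ := fun i => (z i : ℝ) / q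

/-- the Riemann sum of step `1 / q` -/
def RS (q : ℕ) (φ : (Fin d → ℝ) → ℝ) : ℝ := (∑' z : Fin d → ℤ, φ (sc q z)) / (q : ℝ) ^ d

/-- support in the box of half side `R` -/
def SBx (R : ℕ) (φ : (Fin d → ℝ) → ℝ) : Prop := ∀ y, φ y ≠ 0 → ∀ i, |y i| ≤ R

lemma SBx.mono {R R' : ℕ} {φ : (Fin d → ℝ) → ℝ} (h : SBx R φ) (hR : R ≤ R') : SBx R' φ :=
  fun y hy i => (h y hy i).trans (by exact_mod_cast hR)

lemma SBx.of_cs {φ : (Fin d → ℝ) → ℝ} (h : HasCompactSupport φ) : ∃ R : ℕ, SBx R φ := by
  obtain ⟨r, hr⟩ := h.isCompact.isBounded.subset_closedBall (0 : Fin d → ℝ)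
  obtain ⟨R, hR⟩ := exists_nat_ge r
  refine ⟨R, fun y hy i => ?_⟩
  have h1 := hr (subset_tsupport _ hy)
  rw [Metric.mem_closedBall, dist_zero_right] at h1
  exact ((norm_le_pi_norm y i).trans h1).trans hR

lemma SBx.cs {R : ℕ} {φ : (Fin d → ℝ) → ℝ} (h : SBx R φ) : HasCompactSupport φ := by
  refine HasCompactSupport.intro (K := Metric.closedBall (0 : Fin d → ℝ) R)
    (isCompact_closedBall _ _) fun y hy => ?_
  by_contra hne
  apply hy
  rw [Metric.mem_closedBall, dist_zero_right]
  exact (pi_norm_le_iff_of_nonneg (Nat.cast_nonneg _)).2 fun i => h y hne i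

/-- convergence of the Riemann sums -/
theorem RS_lim {φ : (Fin d → ℝ) → ℝ} (hc : Continuous φ) {R : ℕ} (hs : SBx R φ) :
    Tendsto (fun q : ℕ => RS q φ) atTop (𝓝 (∫ x, φ x)) := by
  have h1 := tendsto_tsum_div_pow_atTop_integral (ι := Fin d)
    (Metric.closedBall (0 : Fin d → ℝ) R) φ hc
    Metric.isBounded_closedBall Metric.isClosed_closedBall.measurableSet
    ((convex_closedBall _ _).addHaar_frontier volume)
  have hz : ∀ y, y ∉ Metric.closedBall (0 : Fin d → ℝ) (R : ℝ) → φ y = 0 := by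
    intro y hy
    by_contra hne
    apply hy
    rw [Metric.mem_closedBall, dist_zero_right]
    exact (pi_norm_le_iff_of_nonneg (Nat.cast_nonneg _)).2 fun i => hs y hne i
  have h2 : ∫ x in Metric.closedBall (0 : Fin d → ℝ) R, φ x = ∫ x, φ x :=
    setIntegral_eq_integral_of_forall_compl_eq_zero fun x hx => hz x hx
  rw [h2, Fintype.card_fin] at h1
  refine h1.congr' ?_
  filter_upwards [eventually_ge_atTop 1] with q hq
  have hq0 : (q : ℝ) ≠ 0 := by positivity
  unfold RS
  congr 1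
  have hinj : Function.Injective (sc q : (Fin d → ℤ) → (Fin d → ℝ)) := by
    intro z z' h
    funext i
    have h3 := congrFun h i
    unfold sc at h3
    rw [div_left_inj' hq0] at h3
    exact_mod_cast h3
  have hmem : ∀ y : Fin d → ℝ, y ∈ (q : ℝ)⁻¹ • (Submodule.span ℤ (Set.range (Pi.basisFun ℝ (Fin d))) :
      Set (Fin d → ℝ)) ↔ ∃ z : Fin d → ℤ, sc q z = y := by
    intro y
    rw [Set.mem_smul_set_iff_inv_smul_mem₀ (inv_ne_zero hq0), inv_inv, SetLike.mem_coe,
      Module.Basis.mem_span_iff_repr_mem]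
    constructor
    · intro h
      choose z hz using h
      refine ⟨z, ?_⟩
      funext i
      have h3 := hz i
      simp only [Pi.basisFun_repr, Pi.smul_apply, smul_eq_mul, algebraMap_int_eq,
        eq_intCast] at h3
      unfold sc
      rw [h3]
      field_simp
    · rintro ⟨z, rfl⟩ i
      refine ⟨z i, ?_⟩
      simp only [Pi.basisFun_repr, Pi.smul_apply, smul_eq_mul, algebraMap_int_eq, eq_intCast]
      unfold sc
      field_simp
  have h4 : ∑' x : ↑(Metric.closedBall (0 : Fin d → ℝ) (R : ℝ) ∩ (q : ℝ)⁻¹ •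
      (Submodule.span ℤ (Set.range (Pi.basisFun ℝ (Fin d))) : Set (Fin d → ℝ))), φ x =
      ∑' y, Set.indicator (Metric.closedBall (0 : Fin d → ℝ) (R : ℝ) ∩ (q : ℝ)⁻¹ •
      (Submodule.span ℤ (Set.range (Pi.basisFun ℝ (Fin d))) : Set (Fin d → ℝ))) φ y :=
    tsum_subtype _ φ
  have h5 := hinj.tsum_eq (f := Set.indicator (Metric.closedBall (0 : Fin d → ℝ) (R : ℝ) ∩
    (q : ℝ)⁻¹ • (Submodule.span ℤ (Set.range (Pi.basisFun ℝ (Fin d))) : Set (Fin d → ℝ))) φ)
    (fun y hy => by
      have h6 := Set.mem_of_indicator_ne_zero hy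
      exact (hmem y).1 h6.2)
  rw [h4, ← h5]
  refine tsum_congr fun z => ?_
  by_cases h6 : sc q z ∈ Metric.closedBall (0 : Fin d → ℝ) (R : ℝ)
  · have h8 : sc q z ∈ Metric.closedBall (0 : Fin d → ℝ) (R : ℝ) ∩ (q : ℝ)⁻¹ •
      (Submodule.span ℤ (Set.range (Pi.basisFun ℝ (Fin d))) : Set (Fin d → ℝ)) :=
      ⟨h6, (hmem _).2 ⟨z, rfl⟩⟩
    rw [Set.indicator_of_mem h8]
  · rw [Set.indicator_of_notMem fun h7 => h6 h7.1, hz _ h6]

/-! ### sampling on the torus -/

variable {l : ℕ} [NeZero l]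

/-- sampling with the origin at the site with coordinates `S` -/
def smp (q S : ℕ) (φ : (Fin d → ℝ) → ℝ) : St d l → ℝ :=
  fun x => φ fun i => ((wv x i : ℝ) - S) / q

lemma smp_apply (q S : ℕ) (φ : (Fin d → ℝ) → ℝ) (x : St d l) :
    smp q S φ x = φ fun i => ((wv x i : ℝ) - S) / q := rfl

lemma smp_sum {q S R : ℕ} (hq : 1 ≤ q) {φ : (Fin d → ℝ) → ℝ} (hs : SBx R φ) (h1 : R * q ≤ S)
    (h2 : S + R * q < l) : ∑ x : St d l, smp q S φ x = ∑' z : Fin d → ℤ, φ (sc q z) := by
  have hq0 : (0 : ℝ) < q := by exact_mod_cast hq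
  have hinj : Function.Injective (fun x : St d l => fun i => ((wv x i : ℤ) - S)) := by
    intro x y h
    refine wv_inj ?_
    funext i
    have h3 := congrFun h i
    simp only at h3
    omega
  have h3 := hinj.tsum_eq (f := fun z : Fin d → ℤ => φ (sc q z)) (fun z hz => by
    have h4 := hs _ hz
    have h5 : ∀ i, |z i| ≤ R * q := fun i => by
      have h6 := h4 i
      unfold sc at h6
      rw [abs_div, abs_of_pos hq0, div_le_iff₀ hq0] at h6
      exact_mod_cast h6
    refine ⟨fun i => ((z i + S).toNat : ZMod l), ?_⟩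
    funext i
    have h7 := abs_le.1 (h5 i)
    have h8 : (z i + S).toNat < l := by
      have : (R : ℤ) * q ≤ S := by exact_mod_cast h1
      have : (S : ℤ) + R * q < l := by exact_mod_cast h2
      omega
    show ((wv (fun i => ((z i + S).toNat : ZMod l)) i : ℕ) : ℤ) - S = z i
    unfold wv
    simp only
    rw [ZMod.val_natCast_of_lt h8]
    have : (R : ℤ) * q ≤ S := by exact_mod_cast h1
    omega)
  rw [← h3, tsum_fintype]
  refine Finset.sum_congr rfl fun x _ => ?_
  rw [smp_apply]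
  congr 1
  funext i
  unfold sc
  push_cast
  rfl

/-- forward difference with the step `1 / q` -/
def Dq (q : ℕ) (i : Fin d) (φ : (Fin d → ℝ) → ℝ) (y : Fin d → ℝ) : ℝ :=
  q * (φ (y + Pi.single i (1 / (q : ℝ))) - φ y)

/-- backward difference with the step `1 / q` -/
def Dq' (q : ℕ) (i : Fin d) (φ : (Fin d → ℝ) → ℝ) (y : Fin d → ℝ) : ℝ :=
  q * (φ (y - Pi.single i (1 / (q : ℝ))) - φ y)

lemma SBx.dq {R q : ℕ} (hq : 1 ≤ q) {φ : (Fin d → ℝ) → ℝ} (hs : SBx R φ) (i : Fin d) :
    SBx (R + 1) (Dq q i φ) := by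
  intro y hy j
  have hq0 : (0 : ℝ) < q := by exact_mod_cast hq
  have hq1 : 1 / (q : ℝ) ≤ 1 := by
    rw [div_le_one hq0]; exact_mod_cast hq
  have h1 : φ (y + Pi.single i (1 / (q : ℝ))) ≠ 0 ∨ φ y ≠ 0 := by
    by_contra hc
    push Not at hc
    apply hy
    unfold Dq
    rw [hc.1, hc.2]; ring
  push_cast
  rcases h1 with h1 | h1
  · have h2 := hs _ h1 j
    rw [Pi.add_apply] at h2
    by_cases hij : j = i
    · subst hij
      rw [Pi.single_eq_same] at h2
      have h3 : |y j| ≤ |y j + 1 / (q : ℝ)| + |1 / (q : ℝ)| := by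
        have := abs_sub (y j + 1 / (q : ℝ)) (1 / (q : ℝ))
        simpa using this
      rw [abs_of_pos (show 0 < 1 / (q : ℝ) by positivity)] at h3
      linarith
    · rw [Pi.single_eq_of_ne hij, add_zero] at h2
      linarith
  · have h2 := hs _ h1 j
    linarith

lemma SBx.dq' {R q : ℕ} (hq : 1 ≤ q) {φ : (Fin d → ℝ) → ℝ} (hs : SBx R φ) (i : Fin d) :
    SBx (R + 1) (Dq' q i φ) := by
  intro y hy j
  have hq0 : (0 : ℝ) < q := by exact_mod_cast hq
  have hq1 : 1 / (q : ℝ) ≤ 1 := by
    rw [div_le_one hq0]; exact_mod_cast hq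
  have h1 : φ (y - Pi.single i (1 / (q : ℝ))) ≠ 0 ∨ φ y ≠ 0 := by
    by_contra hc
    push Not at hc
    apply hy
    unfold Dq'
    rw [hc.1, hc.2]; ring
  push_cast
  rcases h1 with h1 | h1
  · have h2 := hs _ h1 j
    rw [Pi.sub_apply] at h2
    by_cases hij : j = i
    · subst hij
      rw [Pi.single_eq_same] at h2
      have h3 : |y j| ≤ |y j - 1 / (q : ℝ)| + |1 / (q : ℝ)| := by
        have := abs_add_le (y j - 1 / (q : ℝ)) (1 / (q : ℝ))
        simpa using this
      rw [abs_of_pos (show 0 < 1 / (q : ℝ) by positivity)] at h3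
      linarith
    · rw [Pi.single_eq_of_ne hij, sub_zero] at h2
      linarith
  · have h2 := hs _ h1 j
    linarith

/-- forward differences of sampled functions -/
lemma Dp_smp {q S R : ℕ} (hq : 1 ≤ q) {φ : (Fin d → ℝ) → ℝ} (hs : SBx R φ) (h1 : R * q < S)
    (h2 : S + R * q + 1 < l) (i : Fin d) :
    Dp i (smp q S φ : St d l → ℝ) = (1 / (q : ℝ)) • smp q S (Dq q i φ) := by
  have hq0 : (0 : ℝ) < q := by exact_mod_cast hq
  funext x
  rw [Pi.smul_apply, smul_eq_mul, smp_apply]
  unfold Dp Dq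
  rw [← mul_assoc, one_div_mul_cancel hq0.ne', one_mul, smp_apply, smp_apply]
  have hR : (R : ℝ) * q < S := by exact_mod_cast h1
  have hR2 : (S : ℝ) + R * q + 1 < l := by exact_mod_cast h2
  by_cases hx : wv x i + 1 < l
  · congr 2
    funext j
    rw [wv_add hx, Pi.add_apply, Pi.add_apply]
    by_cases hj : j = i
    · subst hj
      rw [es_same, Pi.single_eq_same]
      push_cast
      ring
    · rw [es_ne hj, Pi.single_eq_of_ne hj]
      push_cast
      ring
  · have h3 := wv_lt x i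
    have h4 : wv x i + 1 = l := by omega
    have h5 : wv (x + eT i) i = 0 := by
      unfold wv
      have h6 : (x + eT i : St d l) i = x i + 1 := by simp [eT]
      rw [h6, ZMod.val_add]
      have h7 : (x i).val + 1 = l := h4
      have hl : 1 < l := by omega
      have : Fact (1 < l) := ⟨hl⟩
      rw [ZMod.val_one, h7, Nat.mod_self]
    have h8 : (l : ℝ) = (wv x i : ℝ) + 1 := by exact_mod_cast h4.symm
    have z1 : φ (fun j => ((wv (x + eT i) j : ℝ) - S) / q) = 0 := by
      by_contra hne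
      have h6 := hs _ hne i
      simp only [h5] at h6
      rw [abs_div, abs_of_pos hq0, div_le_iff₀ hq0] at h6
      have h9 := neg_abs_le (((0 : ℕ) : ℝ) - S)
      push_cast at h9 h6
      linarith
    have z2 : φ (fun j => ((wv x j : ℝ) - S) / q) = 0 := by
      by_contra hne
      have h6 := hs _ hne i
      rw [abs_div, abs_of_pos hq0, div_le_iff₀ hq0] at h6
      have h9 := le_abs_self ((wv x i : ℝ) - S)
      linarith
    have z3 : φ ((fun j => ((wv x j : ℝ) - S) / q) + Pi.single i (1 / (q : ℝ))) = 0 := by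
      by_contra hne
      have h6 := hs _ hne i
      rw [Pi.add_apply, Pi.single_eq_same] at h6
      have h7 : ((wv x i : ℝ) - S) / q + 1 / q = ((wv x i : ℝ) - S + 1) / q := by ring
      rw [h7, abs_div, abs_of_pos hq0, div_le_iff₀ hq0] at h6
      have h9 := le_abs_self ((wv x i : ℝ) - S + 1)
      linarith
    rw [z1, z2, z3]

/-- backward differences of sampled functions -/
lemma Dm_smp {q S R : ℕ} (hq : 1 ≤ q) {φ : (Fin d → ℝ) → ℝ} (hs : SBx R φ) (h1 : R * q < S)
    (h2 : S + R * q + 1 < l) (i : Fin d) :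
    Dm i (smp q S φ : St d l → ℝ) = (1 / (q : ℝ)) • smp q S (Dq' q i φ) := by
  have hq0 : (0 : ℝ) < q := by exact_mod_cast hq
  funext x
  rw [Pi.smul_apply, smul_eq_mul, smp_apply]
  unfold Dm Dq'
  rw [← mul_assoc, one_div_mul_cancel hq0.ne', one_mul, smp_apply, smp_apply]
  have hR : (R : ℝ) * q < S := by exact_mod_cast h1
  have hR2 : (S : ℝ) + R * q + 1 < l := by exact_mod_cast h2
  obtain ⟨y, hy⟩ : ∃ y, y = x - eT i := ⟨_, rfl⟩
  have hyx : x = y + eT i := by rw [hy]; abel
  rw [← hy]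
  by_cases hx : wv y i + 1 < l
  · congr 2
    funext j
    rw [hyx, Pi.sub_apply, wv_add hx, Pi.add_apply]
    by_cases hj : j = i
    · subst hj
      rw [es_same, Pi.single_eq_same]
      push_cast
      ring
    · rw [es_ne hj, Pi.single_eq_of_ne hj]
      push_cast
      ring
  · have h3 := wv_lt y i
    have h4 : wv y i + 1 = l := by omega
    have h5 : wv x i = 0 := by
      rw [hyx]
      unfold wv
      have h6 : (y + eT i : St d l) i = y i + 1 := by simp [eT]
      rw [h6, ZMod.val_add]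
      have h7 : (y i).val + 1 = l := h4
      have hl : 1 < l := by omega
      have : Fact (1 < l) := ⟨hl⟩
      rw [ZMod.val_one, h7, Nat.mod_self]
    have h8 : (l : ℝ) = (wv y i : ℝ) + 1 := by exact_mod_cast h4.symm
    have z1 : φ (fun j => ((wv x j : ℝ) - S) / q) = 0 := by
      by_contra hne
      have h6 := hs _ hne i
      simp only [h5] at h6
      rw [abs_div, abs_of_pos hq0, div_le_iff₀ hq0] at h6
      have h9 := neg_abs_le (((0 : ℕ) : ℝ) - S)
      push_cast at h9 h6
      linarith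
    have z2 : φ (fun j => ((wv y j : ℝ) - S) / q) = 0 := by
      by_contra hne
      have h6 := hs _ hne i
      rw [abs_div, abs_of_pos hq0, div_le_iff₀ hq0] at h6
      have h9 := le_abs_self ((wv y i : ℝ) - S)
      linarith
    have z3 : φ ((fun j => ((wv x j : ℝ) - S) / q) - Pi.single i (1 / (q : ℝ))) = 0 := by
      by_contra hne
      have h6 := hs _ hne i
      rw [Pi.sub_apply, Pi.single_eq_same] at h6
      simp only [h5] at h6
      have h7 : (((0 : ℕ) : ℝ) - S) / q - 1 / q = (((0 : ℕ) : ℝ) - S - 1) / q := by ring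
      rw [h7, abs_div, abs_of_pos hq0, div_le_iff₀ hq0] at h6
      have h9 := neg_abs_le (((0 : ℕ) : ℝ) - S - 1)
      push_cast at h9 h6
      linarith
    rw [z1, z2, z3]

end

end Pool.Agent.Run7.h897
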