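import Mathlib
import Pool.Agent.Run7.h897.Rie

/-!
# Uniform convergence of difference quotients, convergence of Riemann sums
-/

open MeasureTheory Filter
open scoped ContDiff Topology Pointwise
open Pool.Agent.H906R3.YM Pool.Agent.W793.YM

namespace Pool.Agent.Run7.h897

set_option linter.unusedSectionVars false
set_option linter.unusedVariables false

noncomputable section

variable {d : ℕ}

/-- the box of lattice points -/
def bx (d : ℕ) (M : ℕ) : Finset (Fin d → ℤ) :=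
  Fintype.piFinset fun _ => Finset.Icc (-(M : ℤ)) M

lemma RS_eq {R q : ℕ} (hq : 1 ≤ q) {φ : (Fin d → ℝ) → ℝ} (hs : SBx R φ) :
    RS q φ = (∑ z ∈ bx d (R * q), φ (sc q z)) / (q : ℝ) ^ d := by
  unfold RS
  congr 1
  refine tsum_eq_sum fun z hz => ?_
  by_contra hne
  apply hz
  unfold bx
  rw [Fintype.mem_piFinset]
  intro i
  have hq0 : (0 : ℝ) < q := by exact_mod_cast hq
  have h6 := hs _ hne i
  unfold sc at h6
  rw [abs_div, abs_of_pos hq0, div_le_iff₀ hq0] at h6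
  have h7 : |z i| ≤ R * q := by exact_mod_cast h6
  rw [Finset.mem_Icc]
  push_cast
  exact abs_le.1 h7

lemma RS_mono {R q : ℕ} (hq : 1 ≤ q) {φ ψ : (Fin d → ℝ) → ℝ} (hs : SBx R φ) (hs' : SBx R ψ)
    (h : ∀ y, φ y ≤ ψ y) : RS q φ ≤ RS q ψ := by
  rw [RS_eq hq hs, RS_eq hq hs']
  exact div_le_div_of_nonneg_right (Finset.sum_le_sum fun z _ => h _) (by positivity)

lemma RS_sub {R q : ℕ} (hq : 1 ≤ q) {φ ψ : (Fin d → ℝ) → ℝ} (hs : SBx R φ) (hs' : SBx R ψ) :
    RS q (fun y => φ y - ψ y) = RS q φ - RS q ψ := by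
  have h1 : SBx R fun y => φ y - ψ y := fun y hy i => by
    by_cases h : φ y = 0
    · refine hs' y (fun h0 => hy ?_) i
      simp only [h, h0, sub_zero]
    · exact hs y h i
  rw [RS_eq hq hs, RS_eq hq hs', RS_eq hq h1, Finset.sum_sub_distrib, sub_div]

lemma RS_smul (q : ℕ) (c : ℝ) (φ : (Fin d → ℝ) → ℝ) : RS q (fun y => c * φ y) = c * RS q φ := by
  unfold RS
  rw [tsum_mul_left, mul_div_assoc]

lemma RS_abs {R q : ℕ} (hq : 1 ≤ q) {φ : (Fin d → ℝ) → ℝ} (hs : SBx R φ) :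
    |RS q φ| ≤ RS q fun y => |φ y| := by
  have h1 : SBx R fun y => |φ y| := fun y hy i => hs y (fun h => hy (by simp [h])) i
  rw [RS_eq hq hs, RS_eq hq h1, abs_div, abs_of_nonneg (show (0 : ℝ) ≤ (q : ℝ) ^ d by positivity)]
  exact div_le_div_of_nonneg_right (Finset.abs_sum_le_sum_abs _ _) (by positivity)

/-- a cutoff -/
def ctf (R : ℕ) (y : Fin d → ℝ) : ℝ := max 0 (min 1 (R + 1 - ‖y‖))

lemma ctf_cont (R : ℕ) : Continuous (ctf R : (Fin d → ℝ) → ℝ) :=
  continuous_const.max (continuous_const.min (continuous_const.sub continuous_norm))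

lemma ctf_nonneg (R : ℕ) (y : Fin d → ℝ) : 0 ≤ ctf R y := le_max_left _ _

lemma ctf_SBx (R : ℕ) : SBx (R + 1) (ctf R : (Fin d → ℝ) → ℝ) := by
  intro y hy i
  push_cast
  by_contra hc
  push Not at hc
  apply hy
  unfold ctf
  have h1 := norm_le_pi_norm y i
  rw [Real.norm_eq_abs] at h1
  exact max_eq_left ((min_le_right _ _).trans (by linarith))

lemma ctf_ge {R : ℕ} {y : Fin d → ℝ} (h : ∀ i, |y i| ≤ R) : 1 ≤ ctf R y := by
  unfold ctf
  have h1 : ‖y‖ ≤ R := (pi_norm_le_iff_of_nonneg (Nat.cast_nonneg _)).2 h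
  exact le_max_of_le_right (le_min le_rfl (by linarith))

/-- uniform convergence, with supports in a common box -/
structure UC (R : ℕ) (F : ℕ → (Fin d → ℝ) → ℝ) (F0 : (Fin d → ℝ) → ℝ) : Prop where
  c : Continuous F0
  s0 : SBx R F0
  s : ∀ q, 1 ≤ q → SBx R (F q)
  u : ∀ δ : ℝ, 0 < δ → ∃ q0 : ℕ, ∀ q, q0 ≤ q → ∀ y, |F q y - F0 y| ≤ δ

lemma UC.const {R : ℕ} {F0 : (Fin d → ℝ) → ℝ} (hc : Continuous F0) (hs : SBx R F0) :
    UC R (fun _ => F0) F0 :=
  ⟨hc, hs, fun _ _ => hs, fun δ hδ => ⟨0, fun q _ y => by rw [sub_self, abs_zero]; exact hδ.le⟩⟩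

lemma UC.mono {R R' : ℕ} {F : ℕ → (Fin d → ℝ) → ℝ} {F0 : (Fin d → ℝ) → ℝ} (h : UC R F F0)
    (hR : R ≤ R') : UC R' F F0 :=
  ⟨h.c, h.s0.mono hR, fun q hq => (h.s q hq).mono hR, h.u⟩

lemma UC.bdd {R : ℕ} {F : ℕ → (Fin d → ℝ) → ℝ} {F0 : (Fin d → ℝ) → ℝ} (h : UC R F F0) :
    ∃ B : ℝ, 0 ≤ B ∧ ∀ y, |F0 y| ≤ B := by
  obtain ⟨B, hB⟩ := h.c.bounded_above_of_compact_support h.s0.cs
  exact ⟨max B 0, le_max_right _ _, fun y => (hB y).trans (le_max_left _ _)⟩

lemma UC.add {R : ℕ} {F H : ℕ → (Fin d → ℝ) → ℝ} {F0 H0 : (Fin d → ℝ) → ℝ} (h : UC R F F0)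
    (h' : UC R H H0) : UC R (fun q y => F q y + H q y) fun y => F0 y + H0 y := by
  refine ⟨h.c.add h'.c, ?_, ?_, ?_⟩
  · intro y hy i
    by_cases h0 : F0 y = 0
    · exact h'.s0 y (fun h1 => hy (by simp only [h0, h1, add_zero])) i
    · exact h.s0 y h0 i
  · intro q hq y hy i
    by_cases h0 : F q y = 0
    · exact h'.s q hq y (fun h1 => hy (by simp only [h0, h1, add_zero])) i
    · exact h.s q hq y h0 i
  · intro δ hδ
    obtain ⟨q1, h1⟩ := h.u (δ / 2) (by positivity)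
    obtain ⟨q2, h2⟩ := h'.u (δ / 2) (by positivity)
    refine ⟨max q1 q2, fun q hq y => ?_⟩
    have e1 := h1 q ((le_max_left _ _).trans hq) y
    have e2 := h2 q ((le_max_right _ _).trans hq) y
    calc |F q y + H q y - (F0 y + H0 y)| = |(F q y - F0 y) + (H q y - H0 y)| := by congr 1; ring
      _ ≤ |F q y - F0 y| + |H q y - H0 y| := abs_add_le _ _
      _ ≤ δ := by linarith

lemma UC.smul {R : ℕ} {F : ℕ → (Fin d → ℝ) → ℝ} {F0 : (Fin d → ℝ) → ℝ} (c : ℝ) (h : UC R F F0) :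
    UC R (fun q y => c * F q y) fun y => c * F0 y := by
  refine ⟨continuous_const.mul h.c, fun y hy i => h.s0 y (fun h0 => hy (by simp [h0])) i,
    fun q hq y hy i => h.s q hq y (fun h0 => hy (by simp [h0])) i, fun δ hδ => ?_⟩
  obtain ⟨q1, h1⟩ := h.u (δ / (|c| + 1)) (by positivity)
  refine ⟨q1, fun q hq y => ?_⟩
  have e1 := h1 q hq y
  rw [le_div_iff₀ (by positivity)] at e1
  calc |c * F q y - c * F0 y| = |c| * |F q y - F0 y| := by rw [← mul_sub, abs_mul]
    _ ≤ |F q y - F0 y| * (|c| + 1) := by nlinarith [abs_nonneg (F q y - F0 y), abs_nonneg c]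
    _ ≤ δ := e1

lemma UC.neg {R : ℕ} {F : ℕ → (Fin d → ℝ) → ℝ} {F0 : (Fin d → ℝ) → ℝ} (h : UC R F F0) :
    UC R (fun q y => -F q y) fun y => -F0 y := by
  have := h.smul (-1)
  simpa using this

lemma UC.sub {R : ℕ} {F H : ℕ → (Fin d → ℝ) → ℝ} {F0 H0 : (Fin d → ℝ) → ℝ} (h : UC R F F0)
    (h' : UC R H H0) : UC R (fun q y => F q y - H q y) fun y => F0 y - H0 y := by
  have := h.add h'.neg
  simpa only [← sub_eq_add_neg] using this

lemma UC.sum {ι : Type*} (s : Finset ι) {R : ℕ} {F : ι → ℕ → (Fin d → ℝ) → ℝ}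
    {F0 : ι → (Fin d → ℝ) → ℝ} (h : ∀ i ∈ s, UC R (F i) (F0 i)) :
    UC R (fun q y => ∑ i ∈ s, F i q y) fun y => ∑ i ∈ s, F0 i y := by
  classical
  induction s using Finset.induction_on with
  | empty =>
    simp only [Finset.sum_empty]
    exact UC.const continuous_const fun y hy => absurd rfl hy
  | insert a s ha ih =>
    simp only [Finset.sum_insert ha]
    exact (h a (Finset.mem_insert_self _ _)).add
      (ih fun i hi => h i (Finset.mem_insert_of_mem hi))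

lemma UC.mul {R : ℕ} {F H : ℕ → (Fin d → ℝ) → ℝ} {F0 H0 : (Fin d → ℝ) → ℝ} (h : UC R F F0)
    (h' : UC R H H0) : UC R (fun q y => F q y * H q y) fun y => F0 y * H0 y := by
  refine ⟨h.c.mul h'.c, fun y hy i => h.s0 y (left_ne_zero_of_mul hy) i,
    fun q hq y hy i => h.s q hq y (left_ne_zero_of_mul hy) i, fun δ hδ => ?_⟩
  obtain ⟨B, hB0, hB⟩ := h.bdd
  obtain ⟨B', hB0', hB'⟩ := h'.bdd
  obtain ⟨q1, h1⟩ := h.u (δ / (2 * (B' + 1))) (by positivity)
  obtain ⟨q2, h2⟩ := h'.u (min 1 (δ / (2 * (B + 1)))) (by positivity)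
  refine ⟨max q1 q2, fun q hq y => ?_⟩
  have e1 := h1 q ((le_max_left _ _).trans hq) y
  have e2 := h2 q ((le_max_right _ _).trans hq) y
  have e3 : |H q y| ≤ B' + 1 := by
    have e4 : |H q y| ≤ |H q y - H0 y| + |H0 y| := by
      have := abs_add_le (H q y - H0 y) (H0 y)
      simpa using this
    have e5 := e2.trans (min_le_left _ _)
    have e6 := hB' y
    linarith
  have e4 := e2.trans (min_le_right _ _)
  rw [le_div_iff₀ (by positivity)] at e1 e4
  calc |F q y * H q y - F0 y * H0 y| =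
      |(F q y - F0 y) * H q y + F0 y * (H q y - H0 y)| := by congr 1; ring
    _ ≤ |F q y - F0 y| * |H q y| + |F0 y| * |H q y - H0 y| := by
        rw [← abs_mul, ← abs_mul]; exact abs_add_le _ _
    _ ≤ |F q y - F0 y| * (B' + 1) + (B + 1) * |H q y - H0 y| := by
        refine add_le_add (mul_le_mul_of_nonneg_left e3 (abs_nonneg _))
          (mul_le_mul_of_nonneg_right ((hB y).trans (by linarith)) (abs_nonneg _))
    _ ≤ δ := by nlinarith

/-- **convergence of the Riemann sums** -/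
theorem UC.lim {R : ℕ} {F : ℕ → (Fin d → ℝ) → ℝ} {F0 : (Fin d → ℝ) → ℝ} (h : UC R F F0) :
    Tendsto (fun q => RS q (F q)) atTop (𝓝 (∫ x, F0 x)) := by
  have h1 := RS_lim h.c h.s0
  have h2 := RS_lim (ctf_cont (d := d) R) (ctf_SBx R)
  obtain ⟨T, hT⟩ : ∃ T : ℝ, T = |∫ x, ctf (d := d) R x| + 1 := ⟨_, rfl⟩
  have hT0 : 0 < T := by rw [hT]; positivity
  have h3 : ∀ᶠ q in atTop, RS q (ctf (d := d) R) ≤ T := by
    refine ((tendsto_order.1 h2).2 T ?_).mono fun q hq => le_of_lt hq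
    rw [hT]
    have := le_abs_self (∫ x, ctf (d := d) R x)
    linarith
  have h4 : Tendsto (fun q => RS q (F q) - RS q F0) atTop (𝓝 0) := by
    rw [Metric.tendsto_atTop]
    intro ε hε
    obtain ⟨q1, hq1⟩ := h.u (ε / (2 * T)) (by positivity)
    obtain ⟨q2, hq2⟩ := eventually_atTop.1 h3
    refine ⟨max 1 (max q1 q2), fun q hq => ?_⟩
    have g1 : 1 ≤ q := (le_max_left _ _).trans hq
    have g2 : q1 ≤ q := ((le_max_left _ _).trans (le_max_right _ _)).trans hq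
    have g3 : q2 ≤ q := ((le_max_right _ _).trans (le_max_right _ _)).trans hq
    rw [Real.dist_eq, sub_zero, ← RS_sub g1 (h.s q g1) h.s0]
    have s1 : SBx R fun y => F q y - F0 y := fun y hy i => by
      by_cases h0 : F q y = 0
      · exact h.s0 y (fun h1 => hy (by simp only [h0, h1, sub_zero])) i
      · exact h.s q g1 y h0 i
    have s2 : SBx (R + 1) fun y => |F q y - F0 y| := fun y hy i => by
      have := s1 y (fun h0 => hy (by simp only [h0, abs_zero])) i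
      push_cast
      linarith
    have s3 : SBx (R + 1) fun y => ε / (2 * T) * ctf (d := d) R y := fun y hy i =>
      ctf_SBx R y (fun h0 => hy (by simp only [h0, mul_zero])) i
    calc |RS q fun y => F q y - F0 y| ≤ RS q fun y => |F q y - F0 y| := RS_abs g1 s1
      _ ≤ RS q fun y => ε / (2 * T) * ctf (d := d) R y := by
          refine RS_mono g1 s2 s3 fun y => ?_
          by_cases hy : F q y - F0 y = 0
          · rw [hy, abs_zero]
            exact mul_nonneg (by positivity) (ctf_nonneg _ _)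
          · have e1 := hq1 q g2 y
            have e2 := ctf_ge (s1 y hy)
            have e3 : 0 ≤ ε / (2 * T) := by positivity
            nlinarith
      _ = ε / (2 * T) * RS q (ctf (d := d) R) := RS_smul _ _ _
      _ ≤ ε / (2 * T) * T := mul_le_mul_of_nonneg_left (hq2 q g3) (by positivity)
      _ < ε := by
          have : ε / (2 * T) * T = ε / 2 := by field_simp
          rw [this]; linarith
  have h5 := h4.add h1
  simpa using h5

/-! ### difference quotients -/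

lemma uc_of {F0 : (Fin d → ℝ) → ℝ} (hc : Continuous F0) (hs : HasCompactSupport F0) :
    UniformContinuous F0 := by
  refine hc.uniformContinuous_of_tendsto_cocompact (x := 0) ?_
  exact hs.is_zero_at_infty

lemma pd_line {φ : (Fin d → ℝ) → ℝ} (hφ : Cc φ) (i : Fin d) (y : Fin d → ℝ) (t : ℝ) :
    HasDerivAt (fun t : ℝ => φ (y + Pi.single i t)) (pd i φ (y + Pi.single i t)) t := by
  have h1 : HasDerivAt (fun t : ℝ => y + (Pi.single i t : Fin d → ℝ)) (Pi.single i 1) t := by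
    rw [hasDerivAt_pi]
    intro j
    by_cases hj : j = i
    · subst hj
      simp only [Pi.add_apply, Pi.single_eq_same]
      exact (hasDerivAt_id t).const_add _
    · simp only [Pi.add_apply, Pi.single_eq_of_ne hj]
      simpa using hasDerivAt_const t (y j + 0)
  exact (hφ.diff (y + Pi.single i t)).hasFDerivAt.comp_hasDerivAt t h1

lemma norm_single (i : Fin d) (t : ℝ) : ‖(Pi.single i t : Fin d → ℝ)‖ ≤ |t| := by
  refine (pi_norm_le_iff_of_nonneg (abs_nonneg _)).2 fun j => ?_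
  by_cases hj : j = i
  · subst hj; simp
  · simp [Pi.single_eq_of_ne hj]

/-- the mean value theorem -/
lemma Dq_mvt {q : ℕ} (hq : 1 ≤ q) {φ : (Fin d → ℝ) → ℝ} (hφ : Cc φ) (i : Fin d)
    (y : Fin d → ℝ) : ∃ z, dist z y ≤ 1 / q ∧ Dq q i φ y = pd i φ z := by
  have hq0 : (0 : ℝ) < q := by exact_mod_cast hq
  have h0 : (0 : ℝ) < 1 / q := by positivity
  obtain ⟨c, hc, h1⟩ := exists_hasDerivAt_eq_slope (fun t : ℝ => φ (y + Pi.single i t))
    (fun t => pd i φ (y + Pi.single i t)) h0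
    (fun t _ => (pd_line hφ i y t).continuousAt.continuousWithinAt)
    (fun t _ => pd_line hφ i y t)
  refine ⟨y + Pi.single i c, ?_, ?_⟩
  · rw [dist_eq_norm, add_sub_cancel_left]
    exact (norm_single i c).trans (by rw [abs_of_pos hc.1]; exact hc.2.le)
  · rw [h1]
    unfold Dq
    rw [Pi.single_zero, add_zero, sub_zero]
    field_simp

lemma Dq'_mvt {q : ℕ} (hq : 1 ≤ q) {φ : (Fin d → ℝ) → ℝ} (hφ : Cc φ) (i : Fin d)
    (y : Fin d → ℝ) : ∃ z, dist z y ≤ 1 / q ∧ Dq' q i φ y = -pd i φ z := by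
  have hq0 : (0 : ℝ) < q := by exact_mod_cast hq
  have h0 : -(1 / (q : ℝ)) < 0 := by
    have : (0 : ℝ) < 1 / q := by positivity
    linarith
  obtain ⟨c, hc, h1⟩ := exists_hasDerivAt_eq_slope (fun t : ℝ => φ (y + Pi.single i t))
    (fun t => pd i φ (y + Pi.single i t)) h0
    (fun t _ => (pd_line hφ i y t).continuousAt.continuousWithinAt)
    (fun t _ => pd_line hφ i y t)
  refine ⟨y + Pi.single i c, ?_, ?_⟩
  · rw [dist_eq_norm, add_sub_cancel_left]
    refine (norm_single i c).trans ?_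
    rw [abs_of_neg hc.2]
    have := hc.1
    linarith
  · rw [h1]
    unfold Dq'
    have h2 : y - Pi.single i (1 / (q : ℝ)) = y + Pi.single i (-(1 / (q : ℝ))) := by
      rw [Pi.single_neg, sub_eq_add_neg]
    rw [h2, Pi.single_zero, add_zero]
    field_simp
    ring

/-- difference quotients converge if the derivatives do -/
lemma UC.dq {R : ℕ} {F : ℕ → (Fin d → ℝ) → ℝ} {G0 : (Fin d → ℝ) → ℝ} {i : Fin d}
    (hF : ∀ q, 1 ≤ q → Cc (F q)) (hs : ∀ q, 1 ≤ q → SBx R (F q))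
    (h : UC R (fun q => pd i (F q)) G0) : UC (R + 1) (fun q => Dq q i (F q)) G0 := by
  refine ⟨h.c, h.s0.mono (by omega), fun q hq => (hs q hq).dq hq i, fun δ hδ => ?_⟩
  obtain ⟨q1, hq1⟩ := h.u (δ / 2) (by positivity)
  have huc := uc_of h.c h.s0.cs
  rw [Metric.uniformContinuous_iff] at huc
  obtain ⟨η, hη, hu⟩ := huc (δ / 2) (by positivity)
  obtain ⟨q2, hq2⟩ := exists_nat_gt (1 / η)
  refine ⟨max 1 (max q1 q2), fun q hq y => ?_⟩
  have g1 : 1 ≤ q := (le_max_left _ _).trans hq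
  have g2 : q1 ≤ q := ((le_max_left _ _).trans (le_max_right _ _)).trans hq
  have g3 : q2 ≤ q := ((le_max_right _ _).trans (le_max_right _ _)).trans hq
  obtain ⟨z, hz, he⟩ := Dq_mvt g1 (hF q g1) i y
  have g4 : dist z y < η := by
    refine hz.trans_lt ?_
    have h5 : (q2 : ℝ) ≤ q := by exact_mod_cast g3
    have h6 : 0 < (q : ℝ) := by exact_mod_cast g1
    rw [div_lt_iff₀ h6]
    rw [div_lt_iff₀ hη] at hq2
    nlinarith
  have g5 := hu g4
  rw [Real.dist_eq] at g5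
  have g6 := hq1 q g2 z
  rw [he]
  calc |pd i (F q) z - G0 y| = |(pd i (F q) z - G0 z) + (G0 z - G0 y)| := by congr 1; ring
    _ ≤ |pd i (F q) z - G0 z| + |G0 z - G0 y| := abs_add_le _ _
    _ ≤ δ := by linarith

lemma UC.dq' {R : ℕ} {F : ℕ → (Fin d → ℝ) → ℝ} {G0 : (Fin d → ℝ) → ℝ} {i : Fin d}
    (hF : ∀ q, 1 ≤ q → Cc (F q)) (hs : ∀ q, 1 ≤ q → SBx R (F q))
    (h : UC R (fun q => pd i (F q)) G0) :
    UC (R + 1) (fun q => Dq' q i (F q)) fun y => -G0 y := by
  refine ⟨h.c.neg, fun y hy i => (h.s0.mono (show R ≤ R + 1 by omega)) y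
    (fun h0 => hy (by simp only [h0, neg_zero])) i, fun q hq => (hs q hq).dq' hq i,
    fun δ hδ => ?_⟩
  obtain ⟨q1, hq1⟩ := h.u (δ / 2) (by positivity)
  have huc := uc_of h.c h.s0.cs
  rw [Metric.uniformContinuous_iff] at huc
  obtain ⟨η, hη, hu⟩ := huc (δ / 2) (by positivity)
  obtain ⟨q2, hq2⟩ := exists_nat_gt (1 / η)
  refine ⟨max 1 (max q1 q2), fun q hq y => ?_⟩
  have g1 : 1 ≤ q := (le_max_left _ _).trans hq
  have g2 : q1 ≤ q := ((le_max_left _ _).trans (le_max_right _ _)).trans hq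
  have g3 : q2 ≤ q := ((le_max_right _ _).trans (le_max_right _ _)).trans hq
  obtain ⟨z, hz, he⟩ := Dq'_mvt g1 (hF q g1) i y
  have g4 : dist z y < η := by
    refine hz.trans_lt ?_
    have h5 : (q2 : ℝ) ≤ q := by exact_mod_cast g3
    have h6 : 0 < (q : ℝ) := by exact_mod_cast g1
    rw [div_lt_iff₀ h6]
    rw [div_lt_iff₀ hη] at hq2
    nlinarith
  have g5 := hu g4
  rw [Real.dist_eq] at g5
  have g6 := hq1 q g2 z
  rw [he]
  calc |-pd i (F q) z - -G0 y| = |(pd i (F q) z - G0 z) + (G0 z - G0 y)| := by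
        rw [← abs_neg]; congr 1; ring
    _ ≤ |pd i (F q) z - G0 z| + |G0 z - G0 y| := abs_add_le _ _
    _ ≤ δ := by linarith

lemma SBx.pd {R : ℕ} {φ : (Fin d → ℝ) → ℝ} (h : SBx R φ) (i : Fin d) :
    SBx R (Pool.Agent.Run7.h897.pd i φ) := by
  intro y hy j
  have h1 : y ∈ tsupport φ := by
    by_contra hc
    apply hy
    unfold Pool.Agent.Run7.h897.pd
    have h2 : fderiv ℝ φ y = 0 := by
      by_contra hne
      exact hc (support_fderiv_subset (𝕜 := ℝ) hne)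
    rw [h2]; rfl
  have h2 : tsupport φ ⊆ {y : Fin d → ℝ | |y j| ≤ R} := by
    refine closure_minimal (fun z hz => h z hz j) ?_
    exact isClosed_le ((continuous_apply j).abs) continuous_const
  exact h2 h1

lemma UC_Dq {R : ℕ} {φ : (Fin d → ℝ) → ℝ} (hφ : Cc φ) (hs : SBx R φ) (i : Fin d) :
    UC (R + 1) (fun q => Dq q i φ) (pd i φ) :=
  UC.dq (F := fun _ => φ) (fun _ _ => hφ) (fun _ _ => hs) (UC.const (hφ.pd i).cont (hs.pd i))

lemma UC_Dq' {R : ℕ} {φ : (Fin d → ℝ) → ℝ} (hφ : Cc φ) (hs : SBx R φ) (i : Fin d) :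
    UC (R + 1) (fun q => Dq' q i φ) (fun y => -pd i φ y) :=
  UC.dq' (F := fun _ => φ) (fun _ _ => hφ) (fun _ _ => hs) (UC.const (hφ.pd i).cont (hs.pd i))

lemma Cc.shift {φ : (Fin d → ℝ) → ℝ} (h : Cc φ) (v : Fin d → ℝ) : Cc fun y => φ (y + v) :=
  ⟨h.sm.comp (contDiff_id.add contDiff_const), h.cs.comp_homeomorph (Homeomorph.addRight v)⟩

lemma pd_shift {φ : (Fin d → ℝ) → ℝ} (h : Cc φ) (v : Fin d → ℝ) (i : Fin d) :
    pd i (fun y => φ (y + v)) = fun y => pd i φ (y + v) := by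
  funext y
  unfold pd
  rw [fderiv_comp_add_right]

lemma Cc.dq {φ : (Fin d → ℝ) → ℝ} (h : Cc φ) (q : ℕ) (i : Fin d) : Cc (Dq q i φ) := by
  have h1 := ((h.shift (Pi.single i (1 / (q : ℝ)))).add h.neg).smul q
  exact h1

lemma pd_Dq {φ : (Fin d → ℝ) → ℝ} (h : Cc φ) (q : ℕ) (i j : Fin d) :
    pd j (Dq q i φ) = Dq q i (pd j φ) := by
  have h0 : Dq q i φ = fun y => (q : ℝ) * (φ (y + Pi.single i (1 / (q : ℝ))) + (-1) * φ y) := by
    funext y; unfold Dq; ring
  rw [h0, pd_smul (q : ℝ) ((h.shift (Pi.single i (1 / (q : ℝ)))).add (h.smul (-1))),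
    pd_add (h.shift _) (h.smul (-1)), pd_shift h, pd_smul (-1) h]
  funext y
  unfold Dq
  ring

/-- mixed second differences -/
lemma UC_Dq2 {R : ℕ} {φ : (Fin d → ℝ) → ℝ} (hφ : Cc φ) (hs : SBx R φ) (i j : Fin d) :
    UC (R + 2) (fun q => Dq' q i (Dq q j φ)) (fun y => -pd j (pd i φ) y) := by
  refine UC.dq' (R := R + 1) (F := fun q => Dq q j φ) (fun q _ => hφ.dq q j)
    (fun q hq => hs.dq hq j) ?_
  have h1 := UC_Dq (hφ.pd i) (hs.pd i) j
  simpa only [pd_Dq hφ] using h1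

end

end Pool.Agent.Run7.h897
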