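import Mathlib
import Pool.Agent.Run7.h897.Uc

/-!
# Decomposition of forms on the torus: comparison of the exact parts
-/

open MeasureTheory Filter
open scoped ContDiff Topology Pointwise
open Pool.Agent.H906R3.YM Pool.Agent.W793.YM

namespace Pool.Agent.Run7.h897

set_option linter.unusedSectionVars false
set_option linter.unusedVariables false

noncomputable section

variable {n d l : ℕ} [NeZero l]

/-! ### the scalar product on the torus -/

/-- scalar product of families of forms -/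
def IP (f g : Fin n → Fm d l) : ℝ := ∑ a, ipF (f a) (g a)

lemma IP_comm (f g : Fin n → Fm d l) : IP f g = IP g f :=
  Finset.sum_congr rfl fun a _ => ipF_comm _ _

lemma IP_add_left (f g h : Fin n → Fm d l) : IP (f + g) h = IP f h + IP g h := by
  unfold IP
  rw [← Finset.sum_add_distrib]
  exact Finset.sum_congr rfl fun a _ => ipF_add_left _ _ _

lemma IP_sub_left (f g h : Fin n → Fm d l) : IP (f - g) h = IP f h - IP g h := by
  unfold IP
  rw [← Finset.sum_sub_distrib]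
  exact Finset.sum_congr rfl fun a _ => ipF_sub_left _ _ _

lemma IP_smul_left (c : ℝ) (f h : Fin n → Fm d l) : IP (c • f) h = c * IP f h := by
  unfold IP
  rw [Finset.mul_sum]
  exact Finset.sum_congr rfl fun a _ => ipF_smul_left _ _ _

lemma IP_add_right (f g h : Fin n → Fm d l) : IP f (g + h) = IP f g + IP f h := by
  rw [IP_comm, IP_add_left, IP_comm g, IP_comm h]

lemma IP_sub_right (f g h : Fin n → Fm d l) : IP f (g - h) = IP f g - IP f h := by
  rw [IP_comm, IP_sub_left, IP_comm g, IP_comm h]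

lemma IP_smul_right (c : ℝ) (f h : Fin n → Fm d l) : IP f (c • h) = c * IP f h := by
  rw [IP_comm, IP_smul_left, IP_comm h]

lemma IP_nonneg (f : Fin n → Fm d l) : 0 ≤ IP f f :=
  Finset.sum_nonneg fun a _ => ipF_self_nonneg _

lemma IP_cs (f g : Fin n → Fm d l) : IP f g ^ 2 ≤ IP f f * IP g g := by
  have h : ∀ t : ℝ, 0 ≤ IP g g * (t * t) + 2 * IP f g * t + IP f f := by
    intro t
    have h1 := IP_nonneg (f + t • g)
    rw [IP_add_left, IP_add_right, IP_add_right, IP_smul_left, IP_smul_left, IP_smul_right,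
      IP_smul_right, IP_comm g f] at h1
    linarith
  have h2 := discrim_le_zero h
  unfold discrim at h2
  nlinarith

/-- the norm -/
def nI (f : Fin n → Fm d l) : ℝ := Real.sqrt (IP f f)

lemma nI_nonneg (f : Fin n → Fm d l) : 0 ≤ nI f := Real.sqrt_nonneg _

lemma nI_sq (f : Fin n → Fm d l) : nI f ^ 2 = IP f f := Real.sq_sqrt (IP_nonneg f)

lemma IP_le (f g : Fin n → Fm d l) : |IP f g| ≤ nI f * nI g := by
  unfold nI
  rw [← Real.sqrt_mul (IP_nonneg f), ← Real.sqrt_sq_eq_abs]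
  exact Real.sqrt_le_sqrt (IP_cs f g)

lemma nI_add (f g : Fin n → Fm d l) : nI (f + g) ≤ nI f + nI g := by
  have h1 := IP_le f g
  have h2 := (abs_le.1 h1).2
  have h3 : nI (f + g) ^ 2 ≤ (nI f + nI g) ^ 2 := by
    rw [nI_sq, IP_add_left, IP_add_right, IP_add_right, IP_comm g f]
    have := nI_sq f
    have := nI_sq g
    nlinarith
  exact (pow_le_pow_iff_left₀ (nI_nonneg _) (add_nonneg (nI_nonneg _) (nI_nonneg _))
    two_ne_zero).1 h3

lemma nI_neg (f : Fin n → Fm d l) : nI (-f) = nI f := by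
  unfold nI
  congr 1
  have h1 : -f = (-1 : ℝ) • f := by rw [neg_smul, one_smul]
  rw [h1, IP_smul_left, IP_smul_right]; ring

lemma nI_sub (f g : Fin n → Fm d l) : nI (f - g) ≤ nI f + nI g := by
  rw [sub_eq_add_neg, ← nI_neg g]; exact nI_add _ _

lemma nI_le_of_self {f g : Fin n → Fm d l} (h : IP f f ≤ IP g f) : nI f ≤ nI g := by
  have h1 := (abs_le.1 (IP_le g f)).2
  rw [← nI_sq] at h
  have h2 : nI f ^ 2 ≤ nI g * nI f := h.trans h1
  rcases (nI_nonneg f).eq_or_lt with h0 | h0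
  · rw [← h0]; exact nI_nonneg _
  · by_contra hc
    push Not at hc
    nlinarith

/-- exact forms -/
def dT (B : Fin n → Fin d → St d l → ℝ) : Fin n → Fm d l := fun a => d1 (B a)

/-- coexact forms -/
def cT (w : Fin n → Fm d l) : Fin n → Fm d l := fun a => cx (w a)

lemma cT_orth {w : Fin n → Fm d l} (hw : ∀ a, Asy (w a)) (B : Fin n → Fin d → St d l → ℝ) :
    IP (cT w) (dT B) = 0 := Finset.sum_eq_zero fun a _ => cx_orth (hw a) _

lemma d1_sub' (a b : Fin d → St d l → ℝ) : d1 (fun k => a k - b k) = d1 a - d1 b := by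
  funext j k
  show Dp j (a k - b k) - Dp k (a j - b j) = Dp j (a k) - Dp k (a j) - (Dp j (b k) - Dp k (b j))
  rw [Dp_sub, Dp_sub]; abel

lemma dT_sub (A B : Fin n → Fin d → St d l → ℝ) :
    dT A - dT B = dT (fun a k => A a k - B a k) := by
  funext a
  exact (d1_sub' _ _).symm

lemma vK_eq (K : ℕ) (f : Fin n → Fm d l) : vK K f = nI (dT (AK K f)) ^ 2 := by
  rw [nI_sq]; rfl

lemma vK_nonneg (K : ℕ) (f : Fin n → Fm d l) : 0 ≤ vK K f := by
  rw [vK_eq]; positivity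

lemma dec' (K : ℕ) (f : Fin n → Fm d l) : f = Pks K f + dT (AK K f) + cT (uKs K f) := dec K f

/-- lower bound of the variance -/
lemma LBt (K : ℕ) {f : Fin n → Fm d l} (hf : ∀ a, Asy (f a)) (B : Fin n → Fin d → St d l → ℝ) :
    2 * IP f (dT B) - IP (dT B) (dT B) ≤ (Real.sqrt (vK K f) + nI (Pks K f)) ^ 2 := by
  have hs : Real.sqrt (vK K f) = nI (dT (AK K f)) := by
    rw [vK_eq, Real.sqrt_sq (nI_nonneg _)]
  rw [hs]
  have h1 : IP f (dT B) = IP (Pks K f + dT (AK K f)) (dT B) := by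
    conv_lhs => rw [dec' K f]
    rw [IP_add_left (Pks K f + dT (AK K f)), cT_orth fun a => uKs_asy hf a, add_zero]
  have h2 := IP_nonneg (Pks K f + dT (AK K f) - dT B)
  rw [IP_sub_left, IP_sub_right, IP_sub_right, IP_comm (dT B)] at h2
  have h3 := nI_add (Pks K f) (dT (AK K f))
  have h4 := nI_sq (Pks K f + dT (AK K f))
  have h5 : nI (Pks K f + dT (AK K f)) ^ 2 ≤ (nI (Pks K f) + nI (dT (AK K f))) ^ 2 :=
    pow_le_pow_left₀ (nI_nonneg _) h3 2
  rw [h1]
  nlinarith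

/-- the remainder of the approximation by a Laplacian -/
def eT2 (f w : Fin n → Fm d l) : Fin n → Fm d l := fun a j k => f a j k - lap (w a j k)

lemma dec2 (f w : Fin n → Fm d l) : f = eT2 f w + dT (fun a => ds2 (w a)) + cT w := by
  funext a j k
  show f a j k = f a j k - lap (w a j k) + d1 (ds2 (w a)) j k + cx (w a) j k
  unfold cx
  abel

/-- upper bound of the variance -/
lemma UBt (K : ℕ) {f w : Fin n → Fm d l} (hf : ∀ a, Asy (f a)) (hw : ∀ a, Asy (w a)) :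
    Real.sqrt (vK K f) ≤ nI (dT fun a => ds2 (w a)) + nI (eT2 f w) + nI (Pks K f) := by
  have hs : Real.sqrt (vK K f) = nI (dT (AK K f)) := by
    rw [vK_eq, Real.sqrt_sq (nI_nonneg _)]
  rw [hs]
  obtain ⟨E, hE⟩ : ∃ E, E = dT (AK K f) := ⟨_, rfl⟩
  obtain ⟨D, hD⟩ : ∃ D, D = dT (fun a => ds2 (w a)) := ⟨_, rfl⟩
  have h1 : E - D = (eT2 f w - Pks K f) + (cT w - cT (uKs K f)) := by
    have e1 := dec' K f
    have e2 := dec2 f w
    rw [← hE] at e1
    rw [← hD] at e2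
    have e3 : Pks K f + E + cT (uKs K f) = eT2 f w + D + cT w := by rw [← e1, ← e2]
    have e4 : E - D = (Pks K f + E + cT (uKs K f)) - Pks K f - cT (uKs K f) - D := by abel
    rw [e4, e3]; abel
  have h2 : IP (cT w - cT (uKs K f)) (E - D) = 0 := by
    rw [hE, hD, dT_sub, IP_sub_left, cT_orth hw, cT_orth fun a => uKs_asy hf a, sub_zero]
  have h3 : IP (E - D) (E - D) ≤ IP (eT2 f w - Pks K f) (E - D) := by
    have e5 : IP (E - D) (E - D) =
        IP ((eT2 f w - Pks K f) + (cT w - cT (uKs K f))) (E - D) := by rw [← h1]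
    rw [e5, IP_add_left, h2, add_zero]
  have h4 := nI_le_of_self h3
  have h5 := nI_sub (eT2 f w) (Pks K f)
  have h6 : nI E ≤ nI D + nI (E - D) := by
    have := nI_add D (E - D)
    rwa [add_sub_cancel] at this
  rw [← hE, ← hD]
  linarith

lemma UBt2 {f w : Fin n → Fm d l} (hw : ∀ a, Asy (w a)) :
    nI (dT fun a => ds2 (w a)) ^ 2 - 2 * nI (eT2 f w) * nI (dT fun a => ds2 (w a)) ≤
      2 * IP f (dT fun a => ds2 (w a)) - IP (dT fun a => ds2 (w a)) (dT fun a => ds2 (w a)) := by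
  obtain ⟨D, hD⟩ : ∃ D, D = dT (fun a => ds2 (w a)) := ⟨_, rfl⟩
  have h1 : IP f D = IP (eT2 f w) D + IP D D := by
    conv_lhs => rw [dec2 f w, ← hD]
    rw [IP_add_left, IP_add_left, hD, cT_orth hw, add_zero]
  have h2 := (abs_le.1 (IP_le (eT2 f w) D)).1
  rw [← hD, h1, nI_sq]
  linarith

lemma UBt3 {f w : Fin n → Fm d l} (hw : ∀ a, Asy (w a)) :
    nI (dT fun a => ds2 (w a)) ≤ nI f + nI (eT2 f w) := by
  obtain ⟨D, hD⟩ : ∃ D, D = dT (fun a => ds2 (w a)) := ⟨_, rfl⟩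
  have h0 : f - eT2 f w = D + cT w := by
    conv_lhs => enter [1]; rw [dec2 f w]
    rw [← hD]; abel
  have h1 : IP D D ≤ IP (f - eT2 f w) D := by
    rw [h0, IP_add_left, hD, cT_orth hw, add_zero]
  rw [← hD]
  exact (nI_le_of_self h1).trans (nI_sub _ _)

/-! ### sampled forms -/

/-- the normalisation -/
def cq (d q : ℕ) : ℝ := (1 / Real.sqrt q) ^ d

lemma cq_nonneg (d q : ℕ) : 0 ≤ cq d q := by unfold cq; positivity

lemma cq_sq (d q : ℕ) : cq d q ^ 2 = 1 / (q : ℝ) ^ d := by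
  unfold cq
  rw [← pow_mul, mul_comm d 2, pow_mul, div_pow, one_pow, Real.sq_sqrt (Nat.cast_nonneg q),
    div_pow, one_pow]

/-- a form on the torus -/
def sm2 (q S : ℕ) (F : Fin n → Fin d → Fin d → (Fin d → ℝ) → ℝ) : Fin n → Fm d l :=
  fun a j k => cq d q • smp q S (F a j k)

/-- scalar product of functions, Riemann sum -/
def IPq (q : ℕ) (F G : Fin n → Fin d → Fin d → (Fin d → ℝ) → ℝ) : ℝ :=
  1 / 2 * ∑ a, ∑ j, ∑ k, RS q fun y => F a j k y * G a j k y

/-- scalar product of functions -/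
def IPc (F G : Fin n → Fin d → Fin d → (Fin d → ℝ) → ℝ) : ℝ :=
  1 / 2 * ∑ a, ∑ j, ∑ k, ∫ y, F a j k y * G a j k y

/-- the conditions on the sizes -/
structure Ok (q S R l : ℕ) : Prop where
  q1 : 1 ≤ q
  s1 : R * q < S
  s2 : S + R * q + 1 < l

lemma Ok.mono {q S R R' l : ℕ} (h : Ok q S R' l) (hR : R ≤ R') : Ok q S R l := by
  have := Nat.mul_le_mul_right q hR
  exact ⟨h.q1, lt_of_le_of_lt this h.s1, by have := h.s2; omega⟩

lemma IP_sm {q S R : ℕ} (hk : Ok q S R l) {F G : Fin n → Fin d → Fin d → (Fin d → ℝ) → ℝ}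
    (hF : ∀ a j k, SBx R (F a j k)) :
    IP (sm2 q S F : Fin n → Fm d l) (sm2 q S G) = IPq q F G := by
  unfold IP IPq ipF
  rw [← Finset.mul_sum]
  congr 1
  refine Finset.sum_congr rfl fun a _ => Finset.sum_congr rfl fun j _ =>
    Finset.sum_congr rfl fun k _ => ?_
  unfold ip2 RS
  rw [← smp_sum (l := l) hk.q1 (S := S) (R := R)
    (φ := fun y => F a j k y * G a j k y) (fun y hy i => hF a j k y (left_ne_zero_of_mul hy) i)
    hk.s1.le (by have := hk.s2; omega), Finset.sum_div]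
  refine Finset.sum_congr rfl fun x _ => ?_
  show cq d q * F a j k _ * (cq d q * G a j k _) = _
  have h1 := cq_sq d q
  rw [smp_apply, div_eq_mul_one_div, ← h1]
  ring

lemma IPq_lim {R : ℕ} {F G : ℕ → Fin n → Fin d → Fin d → (Fin d → ℝ) → ℝ}
    {F0 G0 : Fin n → Fin d → Fin d → (Fin d → ℝ) → ℝ}
    (hF : ∀ a j k, UC R (fun q => F q a j k) (F0 a j k))
    (hG : ∀ a j k, UC R (fun q => G q a j k) (G0 a j k)) :
    Tendsto (fun q => IPq q (F q) (G q)) atTop (𝓝 (IPc F0 G0)) := by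
  unfold IPq IPc
  refine Tendsto.const_mul _ (tendsto_finsetSum _ fun a _ => tendsto_finsetSum _ fun j _ =>
    tendsto_finsetSum _ fun k _ => ?_)
  exact ((hF a j k).mul (hG a j k)).lim

/-- second difference quotients -/
def Lq (q : ℕ) (φ : (Fin d → ℝ) → ℝ) (y : Fin d → ℝ) : ℝ := ∑ i, Dq' q i (Dq q i φ) y

/-- the exact form of a two form, difference quotients -/
def Gq (q : ℕ) (w : Fin n → Fin d → Fin d → (Fin d → ℝ) → ℝ) :
    Fin n → Fin d → Fin d → (Fin d → ℝ) → ℝ :=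
  fun a j k y => ∑ i, Dq' q i (Dq q j (w a i k)) y - ∑ i, Dq' q i (Dq q k (w a i j)) y

/-- the scaled two form on the torus -/
def smW (q S : ℕ) (w : Fin n → Fin d → Fin d → (Fin d → ℝ) → ℝ) : Fin n → Fm d l :=
  fun a j k => ((q : ℝ) ^ 2 * cq d q) • smp q S (w a j k)

/-- the scaled one form on the torus -/
def sm1 (q S : ℕ) (B : Fin n → Fin d → (Fin d → ℝ) → ℝ) : Fin n → Fin d → St d l → ℝ :=
  fun a k => ((q : ℝ) * cq d q) • smp q S (B a k)

/-- difference quotients of a one form -/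
def dq1 (q : ℕ) (B : Fin n → Fin d → (Fin d → ℝ) → ℝ) :
    Fin n → Fin d → Fin d → (Fin d → ℝ) → ℝ :=
  fun a j k y => Dq q j (B a k) y - Dq q k (B a j) y

/-- exterior derivative -/
def dc (B : Fin n → Fin d → (Fin d → ℝ) → ℝ) : Fin n → Fin d → Fin d → (Fin d → ℝ) → ℝ :=
  fun a j k y => pd j (B a k) y - pd k (B a j) y

lemma smp_add (q S : ℕ) (φ ψ : (Fin d → ℝ) → ℝ) :
    (smp q S (fun y => φ y + ψ y) : St d l → ℝ) = smp q S φ + smp q S ψ := rfl

lemma smp_sub (q S : ℕ) (φ ψ : (Fin d → ℝ) → ℝ) :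
    (smp q S (fun y => φ y - ψ y) : St d l → ℝ) = smp q S φ - smp q S ψ := rfl

lemma smp_fsum {ι : Type*} (s : Finset ι) (q S : ℕ) (φ : ι → (Fin d → ℝ) → ℝ) :
    (smp q S (fun y => ∑ i ∈ s, φ i y) : St d l → ℝ) = ∑ i ∈ s, smp q S (φ i) := by
  funext x
  rw [Finset.sum_apply]
  rfl

lemma dT_sm1 {q S R : ℕ} (hk : Ok q S R l) {B : Fin n → Fin d → (Fin d → ℝ) → ℝ}
    (hB : ∀ a k, SBx R (B a k)) : (dT (sm1 q S B) : Fin n → Fm d l) = sm2 q S (dq1 q B) := by
  have hq0 : (q : ℝ) ≠ 0 := by have := hk.q1; positivity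
  funext a j k
  show Dp j (((q : ℝ) * cq d q) • smp q S (B a k)) - Dp k (((q : ℝ) * cq d q) • smp q S (B a j)) =
    cq d q • smp q S (dq1 q B a j k)
  rw [Dp_smul, Dp_smul, Dp_smp hk.q1 (hB a k) hk.s1 hk.s2, Dp_smp hk.q1 (hB a j) hk.s1 hk.s2]
  unfold dq1
  rw [smp_sub, smul_sub, smul_smul, smul_smul]
  have h1 : (q : ℝ) * cq d q * (1 / q) = cq d q := by field_simp
  rw [h1]

lemma Dm_Dp_smp {q S R : ℕ} (hk : Ok q S (R + 2) l) {φ : (Fin d → ℝ) → ℝ} (hφ : SBx R φ)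
    (i j : Fin d) : Dm i (Dp j (((q : ℝ) ^ 2 * cq d q) • (smp q S φ : St d l → ℝ))) =
      cq d q • smp q S (Dq' q i (Dq q j φ)) := by
  have hq0 : (q : ℝ) ≠ 0 := by have := hk.q1; positivity
  have hk0 := hk.mono (show R ≤ R + 2 by omega)
  have hk1 := hk.mono (show R + 1 ≤ R + 2 by omega)
  rw [Dp_smul, Dp_smp hk.q1 hφ hk0.s1 hk0.s2, smul_smul, Dm_smul,
    Dm_smp hk.q1 (hφ.dq hk.q1 j) hk1.s1 hk1.s2, smul_smul]
  congr 1
  field_simp

lemma lap_smW {q S R : ℕ} (hk : Ok q S (R + 2) l) {w : Fin n → Fin d → Fin d → (Fin d → ℝ) → ℝ}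
    (hw : ∀ a j k, SBx R (w a j k)) (a : Fin n) (j k : Fin d) :
    lap ((smW q S w : Fin n → Fm d l) a j k) = cq d q • smp q S (Lq q (w a j k)) := by
  unfold lap smW
  rw [Finset.sum_congr rfl fun i _ => Dm_Dp_smp hk (hw a j k) i i, ← Finset.smul_sum, ← smp_fsum]
  rfl

lemma ds_smW {q S R : ℕ} (hk : Ok q S (R + 2) l) {w : Fin n → Fin d → Fin d → (Fin d → ℝ) → ℝ}
    (hw : ∀ a j k, SBx R (w a j k)) :
    (dT (fun a => ds2 ((smW q S w : Fin n → Fm d l) a)) : Fin n → Fm d l) =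
      sm2 q S (Gq q w) := by
  funext a j k
  show Dp j (∑ i, Dm i ((smW q S w : Fin n → Fm d l) a i k)) -
    Dp k (∑ i, Dm i ((smW q S w : Fin n → Fm d l) a i j)) = cq d q • smp q S (Gq q w a j k)
  rw [Dp_sum, Dp_sum]
  simp only [Dp_Dm]
  unfold smW
  rw [Finset.sum_congr rfl fun i _ => Dm_Dp_smp hk (hw a i k) i j,
    Finset.sum_congr rfl fun i _ => Dm_Dp_smp hk (hw a i j) i k]
  unfold Gq
  rw [smp_sub, smp_fsum, smp_fsum, smul_sub, Finset.smul_sum, Finset.smul_sum]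

lemma eT2_smW {q S R : ℕ} (hk : Ok q S (R + 2) l)
    {f w : Fin n → Fin d → Fin d → (Fin d → ℝ) → ℝ} (hw : ∀ a j k, SBx R (w a j k)) :
    (eT2 (sm2 q S f) (smW q S w) : Fin n → Fm d l) =
      sm2 q S (fun a j k y => f a j k y - Lq q (w a j k) y) := by
  funext a j k
  show cq d q • smp q S (f a j k) - lap ((smW q S w : Fin n → Fm d l) a j k) = _
  rw [lap_smW hk hw]
  unfold sm2
  rw [smp_sub, smul_sub]

end

end Pool.Agent.Run7.h897
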