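import Mathlib
import Pool.Agent.Run7.h897.Hod

/-!
# Convergence of the variance
-/

open MeasureTheory Filter
open scoped ContDiff Topology Pointwise
open Pool.Agent.H906R3.YM Pool.Agent.W793.YM

namespace Pool.Agent.Run7.h897

set_option linter.unusedSectionVars false
set_option linter.unusedVariables false

noncomputable section

variable {n d : ℕ}

/-- the functional -/
def Jc (f : Fin n → Fin d → Fin d → (Fin d → ℝ) → ℝ) (B : Fin n → Fin d → (Fin d → ℝ) → ℝ) : ℝ :=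
  2 * IPc f (dc B) - IPc (dc B) (dc B)

/-- the variance -/
def Qc (f : Fin n → Fin d → Fin d → (Fin d → ℝ) → ℝ) : ℝ :=
  sSup {r | ∃ B : Fin n → Fin d → (Fin d → ℝ) → ℝ, (∀ a k, Cc (B a k)) ∧ r = Jc f B}

/-! ### the remainders -/

lemma IP_N2 {l : ℕ} [NeZero l] (f : Fin n → Fm d l) : IP f f = 1 / 2 * N2 f := by
  unfold IP N2 ipF ip2
  rw [← Finset.mul_sum]
  simp only [sq]

lemma N1_sm2 {l : ℕ} [NeZero l] {q S R : ℕ} (hk : Ok q S R l)
    {f : Fin n → Fin d → Fin d → (Fin d → ℝ) → ℝ} (hs : ∀ a j k, SBx R (f a j k)) :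
    N1 (sm2 q S f : Fin n → Fm d l) =
      cq d q * (q : ℝ) ^ d * ∑ a, ∑ j, ∑ k, RS q fun y => |f a j k y| := by
  have hq0 : (q : ℝ) ^ d ≠ 0 := by have := hk.q1; positivity
  unfold N1
  rw [Finset.mul_sum]
  refine Finset.sum_congr rfl fun a _ => ?_
  rw [Finset.mul_sum]
  refine Finset.sum_congr rfl fun j _ => ?_
  rw [Finset.mul_sum]
  refine Finset.sum_congr rfl fun k _ => ?_
  unfold RS
  rw [← smp_sum (l := l) hk.q1 (S := S) (R := R) (φ := fun y => |f a j k y|)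
    (fun y hy i => hs a j k y (fun h => hy (by simp [h])) i) hk.s1.le
    (by have := hk.s2; omega)]
  rw [mul_assoc, mul_div_cancel₀ _ hq0, Finset.mul_sum]
  refine Finset.sum_congr rfl fun x _ => ?_
  show |cq d q * f a j k _| = cq d q * |f a j k _|
  rw [abs_mul, abs_of_nonneg (cq_nonneg d q)]

lemma N1_sq {l : ℕ} [NeZero l] {q S R : ℕ} (hk : Ok q S R l)
    {f : Fin n → Fin d → Fin d → (Fin d → ℝ) → ℝ} (hs : ∀ a j k, SBx R (f a j k)) :
    N1 (sm2 q S f : Fin n → Fm d l) ^ 2 =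
      (q : ℝ) ^ d * (∑ a, ∑ j, ∑ k, RS q fun y => |f a j k y|) ^ 2 := by
  have hq0 : (q : ℝ) ^ d ≠ 0 := by have := hk.q1; positivity
  rw [N1_sm2 hk hs, mul_pow, mul_pow, cq_sq]
  field_simp

lemma RSabs_bdd {R : ℕ} {f : Fin n → Fin d → Fin d → (Fin d → ℝ) → ℝ}
    (hc : ∀ a j k, Continuous (f a j k)) (hs : ∀ a j k, SBx R (f a j k)) :
    ∃ T : ℝ, 0 < T ∧ ∃ q0 : ℕ, ∀ q, q0 ≤ q → 0 ≤ ∑ a, ∑ j, ∑ k, RS q (fun y => |f a j k y|) ∧
      ∑ a, ∑ j, ∑ k, RS q (fun y => |f a j k y|) ≤ T := by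
  have h1 : Tendsto (fun q => ∑ a, ∑ j, ∑ k, RS q (fun y => |f a j k y|)) atTop
      (𝓝 (∑ a, ∑ j, ∑ k, ∫ y, |f a j k y|)) :=
    tendsto_finsetSum _ fun a _ => tendsto_finsetSum _ fun j _ => tendsto_finsetSum _ fun k _ =>
      RS_lim (hc a j k).abs (R := R) fun y hy i => hs a j k y (fun h => hy (by simp [h])) i
  obtain ⟨W, hW⟩ : ∃ W, W = ∑ a, ∑ j, ∑ k, ∫ y, |f a j k y| := ⟨_, rfl⟩
  rw [← hW] at h1
  refine ⟨|W| + 1, by positivity, ?_⟩
  have h2 := (tendsto_order.1 h1).2 (|W| + 1) (by have := le_abs_self W; linarith)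
  obtain ⟨q0, hq0⟩ := eventually_atTop.1 h2
  refine ⟨q0, fun q hq => ⟨?_, (hq0 q hq).le⟩⟩
  refine Finset.sum_nonneg fun a _ => Finset.sum_nonneg fun j _ => Finset.sum_nonneg fun k _ => ?_
  unfold RS
  exact div_nonneg (tsum_nonneg fun z => abs_nonneg _) (by positivity)

/-- the sizes -/
lemma Ok.of {q S R l : ℕ} (hq : R + 2 ≤ q) (h1 : q ^ 7 ≤ S) (h2 : S + q ^ 7 ≤ l) :
    Ok q S R l := by
  have h3 : (R + 2) * q ≤ q ^ 7 := by
    calc (R + 2) * q ≤ q * q := Nat.mul_le_mul_right q hq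
      _ = q ^ 2 := by ring
      _ ≤ q ^ 7 := Nat.pow_le_pow_right (by omega) (by norm_num)
  have h4 : (R + 2) * q = R * q + 2 * q := by ring
  exact ⟨by omega, by omega, by omega⟩

lemma Pks_small (hd : 3 ≤ d) {R : ℕ} {f : Fin n → Fin d → Fin d → (Fin d → ℝ) → ℝ}
    (hc : ∀ a j k, Continuous (f a j k)) (hs : ∀ a j k, SBx R (f a j k)) {τ : ℝ} (hτ : 0 < τ) :
    ∃ q0 : ℕ, ∀ q, q0 ≤ q → ∀ (l : ℕ) [NeZero l] (S : ℕ), q ^ 7 ≤ S → S + q ^ 7 ≤ l →
      nI (Pks (q ^ 7) (sm2 q S f : Fin n → Fm d l)) ≤ τ := by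
  obtain ⟨T, hT, q1, hq1⟩ := RSabs_bdd hc hs
  obtain ⟨c, hcd⟩ : ∃ c : ℝ, c = (2 + 2 * Real.sqrt (2 * d)) ^ d := ⟨_, rfl⟩
  have hc0 : 0 < c := by rw [hcd]; positivity
  obtain ⟨q2, hq2⟩ := exists_nat_ge (c * T ^ 2 / τ ^ 2)
  refine ⟨max (R + 2) (max q1 q2), fun q hq l _ S h1 h2 => ?_⟩
  have g1 : R + 2 ≤ q := (le_max_left _ _).trans hq
  have g2 : q1 ≤ q := ((le_max_left _ _).trans (le_max_right _ _)).trans hq
  have g3 : q2 ≤ q := ((le_max_right _ _).trans (le_max_right _ _)).trans hq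
  have hqp : 0 < (q : ℝ) := by
    have : 0 < q := by omega
    exact_mod_cast this
  have hq1' : (1 : ℝ) ≤ q := by
    have : 1 ≤ q := by omega
    exact_mod_cast this
  have hk := Ok.of g1 h1 h2
  have h3 := N2_Pks hd (K := q ^ 7) (Nat.one_le_pow _ _ (by omega)) (by omega)
    (sm2 q S f : Fin n → Fm d l)
  rw [N1_sq hk hs, ← hcd] at h3
  obtain ⟨ht0, htT⟩ := hq1 q g2
  obtain ⟨t, ht⟩ : ∃ t, t = ∑ a, ∑ j, ∑ k, RS q (fun y => |f a j k y|) := ⟨_, rfl⟩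
  rw [← ht] at h3 ht0 htT
  obtain ⟨X, hX⟩ : ∃ X, X = N2 (Pks (q ^ 7) (sm2 q S f : Fin n → Fm d l)) := ⟨_, rfl⟩
  rw [← hX] at h3
  push_cast at h3
  have hs3 : (q : ℝ) ^ 3 ≤ Real.sqrt ((q : ℝ) ^ 7) := by
    rw [Real.le_sqrt (by positivity) (by positivity), ← pow_mul]
    exact pow_le_pow_right₀ hq1' (by norm_num)
  have h4 : ((q : ℝ) ^ 3) ^ (d - 2) ≤ Real.sqrt ((q : ℝ) ^ 7) ^ (d - 2) :=
    pow_le_pow_left₀ (by positivity) hs3 _
  have h5 : (q : ℝ) ^ 7 * X ≤ c / ((q : ℝ) ^ 3) ^ (d - 2) * ((q : ℝ) ^ d * T ^ 2) := by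
    refine h3.trans ?_
    have h6 : t ^ 2 ≤ T ^ 2 := pow_le_pow_left₀ ht0 htT 2
    have h7 : (q : ℝ) ^ d * t ^ 2 ≤ (q : ℝ) ^ d * T ^ 2 :=
      mul_le_mul_of_nonneg_left h6 (by positivity)
    refine mul_le_mul ?_ h7 (by positivity) (by positivity)
    exact div_le_div_of_nonneg_left hc0.le (by positivity) h4
  have h6 : X ≤ c * T ^ 2 / q := by
    obtain ⟨e, he⟩ : ∃ e, d = e + 3 := ⟨d - 3, by omega⟩
    subst he
    have e1 : e + 3 - 2 = e + 1 := by omega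
    rw [e1, div_mul_eq_mul_div, le_div_iff₀ (by positivity)] at h5
    rw [le_div_iff₀ hqp]
    have e2 : (q : ℝ) ^ 7 * X * ((q : ℝ) ^ 3) ^ (e + 1) =
        (X * q) * ((q : ℝ) ^ (2 * e + 6) * (q : ℝ) ^ (e + 3)) := by ring
    have e3 : c * ((q : ℝ) ^ (e + 3) * T ^ 2) = (c * T ^ 2) * (q : ℝ) ^ (e + 3) := by ring
    rw [e2, e3, ← mul_assoc] at h5
    have h8 := le_of_mul_le_mul_right h5 (by positivity)
    have h9 : (1 : ℝ) ≤ (q : ℝ) ^ (2 * e + 6) := one_le_pow₀ hq1'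
    have hX0 : 0 ≤ X := by rw [hX]; exact N2_nonneg _
    have h10 : 0 ≤ X * q := mul_nonneg hX0 hqp.le
    nlinarith
  have h7 : nI (Pks (q ^ 7) (sm2 q S f : Fin n → Fm d l)) ^ 2 ≤ τ ^ 2 := by
    rw [nI_sq, IP_N2, ← hX]
    have h8 : (q2 : ℝ) ≤ q := by exact_mod_cast g3
    have h9 : c * T ^ 2 / q ≤ τ ^ 2 := by
      have h10 := hq2.trans h8
      rw [div_le_iff₀ (by positivity)] at h10
      rw [div_le_iff₀ hqp]
      linarith
    have hX0 : 0 ≤ X := by rw [hX]; exact N2_nonneg _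
    linarith
  exact (pow_le_pow_iff_left₀ (nI_nonneg _) hτ.le two_ne_zero).1 h7

/-! ### function level -/

lemma pd_neg {φ : (Fin d → ℝ) → ℝ} (h : Cc φ) (i : Fin d) :
    pd i (fun x => -φ x) = fun x => -pd i φ x := by
  have := pd_smul (-1) h i
  simpa using this

lemma pd_sum {ι : Type*} (s : Finset ι) {φ : ι → (Fin d → ℝ) → ℝ} (h : ∀ i, Cc (φ i))
    (j : Fin d) : pd j (fun x => ∑ i ∈ s, φ i x) = fun x => ∑ i ∈ s, pd j (φ i) x := by
  funext x
  unfold pd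
  rw [fderiv_fun_sum fun i _ => (h i).diff x]
  simp

/-- the divergence -/
def dv2 (w : Fin n → Fin d → Fin d → (Fin d → ℝ) → ℝ) : Fin n → Fin d → (Fin d → ℝ) → ℝ :=
  fun a k y => -∑ i, pd i (w a i k) y

lemma dv2_Cc {w : Fin n → Fin d → Fin d → (Fin d → ℝ) → ℝ} (hw : ∀ a j k, Cc (w a j k))
    (a : Fin n) (k : Fin d) : Cc (dv2 w a k) :=
  (Cc.sum Finset.univ fun i _ => (hw a i k).pd i).neg

lemma dc_dv2 {w : Fin n → Fin d → Fin d → (Fin d → ℝ) → ℝ} (hw : ∀ a j k, Cc (w a j k))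
    (a : Fin n) (j k : Fin d) : dc (dv2 w) a j k = fun y =>
      ∑ i, -pd j (pd i (w a i k)) y - ∑ i, -pd k (pd i (w a i j)) y := by
  funext y
  unfold dc dv2
  rw [pd_neg (Cc.sum Finset.univ fun i _ => (hw a i k).pd i),
    pd_neg (Cc.sum Finset.univ fun i _ => (hw a i j).pd i),
    pd_sum Finset.univ (fun i => (hw a i k).pd i), pd_sum Finset.univ (fun i => (hw a i j).pd i)]
  simp only [Finset.sum_neg_distrib]

lemma UC_Lq {R : ℕ} {φ : (Fin d → ℝ) → ℝ} (hφ : Cc φ) (hs : SBx R φ) :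
    UC (R + 2) (fun q => Lq q φ) (mlap φ) := by
  have h1 := UC.sum (Finset.univ : Finset (Fin d)) (R := R + 2)
    (F := fun i q => Dq' q i (Dq q i φ)) (F0 := fun i y => -pd i (pd i φ) y)
    fun i _ => UC_Dq2 hφ hs i i
  have h2 : mlap φ = fun y => ∑ i, -pd i (pd i φ) y := by
    funext y
    unfold mlap
    rw [Finset.sum_neg_distrib]
  rw [h2]
  exact h1

lemma UC_Gq {R : ℕ} {w : Fin n → Fin d → Fin d → (Fin d → ℝ) → ℝ} (hw : ∀ a j k, Cc (w a j k))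
    (hs : ∀ a j k, SBx R (w a j k)) (a : Fin n) (j k : Fin d) :
    UC (R + 2) (fun q => Gq q w a j k) (dc (dv2 w) a j k) := by
  rw [dc_dv2 hw]
  refine UC.sub (UC.sum _ fun i _ => ?_) (UC.sum _ fun i _ => ?_)
  · exact UC_Dq2 (hw a i k) (hs a i k) i j
  · exact UC_Dq2 (hw a i j) (hs a i j) i k

lemma UC_dq1 {R : ℕ} {B : Fin n → Fin d → (Fin d → ℝ) → ℝ} (hB : ∀ a k, Cc (B a k))
    (hs : ∀ a k, SBx R (B a k)) (a : Fin n) (j k : Fin d) :
    UC (R + 1) (fun q => dq1 q B a j k) (dc B a j k) :=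
  (UC_Dq (hB a k) (hs a k) j).sub (UC_Dq (hB a j) (hs a j) k)

lemma IPc_nonneg (F : Fin n → Fin d → Fin d → (Fin d → ℝ) → ℝ) : 0 ≤ IPc F F := by
  unfold IPc
  exact mul_nonneg (by norm_num) (Finset.sum_nonneg fun a _ => Finset.sum_nonneg fun j _ =>
    Finset.sum_nonneg fun k _ => integral_nonneg fun y => mul_self_nonneg _)

/-- approximation by Laplacians of antisymmetric forms -/
lemma exists_w (hd : 0 < d) {f : Fin n → Fin d → Fin d → (Fin d → ℝ) → ℝ}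
    (hc : ∀ a j k, Continuous (f a j k)) {R : ℕ} (hs : ∀ a j k, SBx R (f a j k))
    (ha : ∀ a j k y, f a j k y = -f a k j y) {η : ℝ} (hη : 0 < η) :
    ∃ w : Fin n → Fin d → Fin d → (Fin d → ℝ) → ℝ, (∀ a j k, Cc (w a j k)) ∧
      (∀ a j k y, w a j k y = -w a k j y) ∧
      IPc (fun a j k y => f a j k y - mlap (w a j k) y)
        (fun a j k y => f a j k y - mlap (w a j k) y) ≤ η ^ 2 := by
  obtain ⟨δ, hδd⟩ : ∃ δ : ℝ, δ = 2 * η ^ 2 / (n * d ^ 2 + 1) := ⟨_, rfl⟩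
  have hδ : 0 < δ := by rw [hδd]; positivity
  have hmem : ∀ a j k, MemLp (f a j k) 2 (volume : Measure (Fin d → ℝ)) := fun a j k =>
    (hc a j k).memLp_of_hasCompactSupport (hs a j k).cs
  have h1 : ∀ a j k, ∃ φ : (Fin d → ℝ) → ℝ, Cc φ ∧ ∫ x, (f a j k x - mlap φ x) ^ 2 ≤ δ :=
    fun a j k => lap_dense hd (hmem a j k) hδ
  choose φ hφ hφ2 using h1
  have hC : ∀ a j k, Cc (fun y => (1 / 2 : ℝ) * (φ a j k y + (-1) * φ a k j y)) := fun a j k =>
    ((hφ a j k).add ((hφ a k j).smul (-1))).smul (1 / 2)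
  refine ⟨fun a j k y => 1 / 2 * (φ a j k y + (-1) * φ a k j y), hC,
    fun a j k y => by ring, ?_⟩
  have hm : ∀ a j k, mlap (fun y => (1 / 2 : ℝ) * (φ a j k y + (-1) * φ a k j y)) =
      fun y => 1 / 2 * (mlap (φ a j k) y + (-1) * mlap (φ a k j) y) := fun a j k => by
    rw [mlap_smul (1 / 2) ((hφ a j k).add ((hφ a k j).smul (-1))),
      mlap_add (hφ a j k) ((hφ a k j).smul (-1)), mlap_smul (-1) (hφ a k j)]
  have hint : ∀ a j k, Integrable (fun y => (f a j k y - mlap (φ a j k) y) ^ 2) volume :=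
    fun a j k => ((hmem a j k).sub ((hφ a j k).mlap.cont.memLp_of_hasCompactSupport
      (hφ a j k).mlap.cs)).integrable_sq
  have hle : ∀ a j k, ∫ y, (f a j k y - mlap (fun y => (1 / 2 : ℝ) *
      (φ a j k y + (-1) * φ a k j y)) y) * (f a j k y - mlap (fun y => (1 / 2 : ℝ) *
      (φ a j k y + (-1) * φ a k j y)) y) ≤ δ := by
    intro a j k
    rw [hm]
    calc ∫ y, (f a j k y - 1 / 2 * (mlap (φ a j k) y + (-1) * mlap (φ a k j) y)) *
          (f a j k y - 1 / 2 * (mlap (φ a j k) y + (-1) * mlap (φ a k j) y)) ≤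
        ∫ y, (1 / 2 * (f a j k y - mlap (φ a j k) y) ^ 2 +
          1 / 2 * (f a k j y - mlap (φ a k j) y) ^ 2) := by
          refine integral_mono_of_nonneg (Eventually.of_forall fun y => mul_self_nonneg _)
            (((hint a j k).const_mul _).add ((hint a k j).const_mul _))
            (Eventually.of_forall fun y => ?_)
          simp only
          rw [ha a k j y]
          nlinarith [sq_nonneg ((f a j k y - mlap (φ a j k) y) -
            (f a j k y + mlap (φ a k j) y))]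
      _ = (1 / 2 * ∫ y, (f a j k y - mlap (φ a j k) y) ^ 2) +
          1 / 2 * ∫ y, (f a k j y - mlap (φ a k j) y) ^ 2 := by
          rw [integral_add ((hint a j k).const_mul _) ((hint a k j).const_mul _),
            integral_const_mul, integral_const_mul]
      _ ≤ δ := by
          have := hφ2 a j k
          have := hφ2 a k j
          linarith
  unfold IPc
  calc 1 / 2 * ∑ a, ∑ j, ∑ k, _ ≤ 1 / 2 * ∑ _a : Fin n, ∑ _j : Fin d, ∑ _k : Fin d, δ :=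
        mul_le_mul_of_nonneg_left (Finset.sum_le_sum fun a _ => Finset.sum_le_sum fun j _ =>
          Finset.sum_le_sum fun k _ => hle a j k) (by norm_num)
    _ = (n * d ^ 2) * δ / 2 := by
        simp only [Finset.sum_const, Finset.card_univ, Fintype.card_fin, nsmul_eq_mul]
        ring
    _ ≤ η ^ 2 := by
        rw [hδd]
        have h2 : (0 : ℝ) < n * d ^ 2 + 1 := by positivity
        rw [div_le_iff₀ (by norm_num : (0 : ℝ) < 2), mul_div_assoc', div_le_iff₀ h2]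
        nlinarith [sq_nonneg η]

lemma cauchy_lim {a b : ℝ} {u v : ℕ → ℝ} (hu : Tendsto u atTop (𝓝 a))
    (hv : Tendsto v atTop (𝓝 b)) (h : ∀ᶠ q in atTop, u q ≤ v q) : a ≤ b :=
  le_of_tendsto_of_tendsto hu hv h

lemma Jc_lim {f : Fin n → Fin d → Fin d → (Fin d → ℝ) → ℝ} (hc : ∀ a j k, Continuous (f a j k))
    {R : ℕ} (hs : ∀ a j k, SBx R (f a j k)) {B : Fin n → Fin d → (Fin d → ℝ) → ℝ}
    (hB : ∀ a k, Cc (B a k)) (hBs : ∀ a k, SBx R (B a k)) :
    Tendsto (fun q => 2 * IPq q f (dq1 q B) - IPq q (dq1 q B) (dq1 q B)) atTop (𝓝 (Jc f B)) := by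
  have h1 : ∀ a j k, UC (R + 1) (fun _ => f a j k) (f a j k) := fun a j k =>
    UC.const (hc a j k) ((hs a j k).mono (by omega))
  have h2 : ∀ a j k, UC (R + 1) (fun q => dq1 q B a j k) (dc B a j k) := fun a j k =>
    UC_dq1 hB hBs a j k
  exact ((IPq_lim (F := fun _ => f) h1 h2).const_mul 2).sub (IPq_lim h2 h2)

/-- a torus of the right size -/
lemma tor_ex {q R : ℕ} (hq : R + 2 ≤ q) : ∃ (l : ℕ) (_ : NeZero l) (S : ℕ), Ok q S R l ∧
    q ^ 7 ≤ S ∧ S + q ^ 7 ≤ l := by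
  have h1 : 1 ≤ q ^ 7 := Nat.one_le_pow _ _ (by omega)
  exact ⟨q ^ 7 + q ^ 7, ⟨by omega⟩, q ^ 7, Ok.of hq le_rfl le_rfl, le_rfl, le_rfl⟩

lemma common_R {f : Fin n → Fin d → Fin d → (Fin d → ℝ) → ℝ} {R : ℕ}
    (hs : ∀ a j k, SBx R (f a j k)) {B : Fin n → Fin d → (Fin d → ℝ) → ℝ}
    (hB : ∀ a k, Cc (B a k)) : ∃ R' : ℕ, (∀ a j k, SBx R' (f a j k)) ∧ ∀ a k, SBx R' (B a k) := by
  have h1 : ∀ a k, ∃ r : ℕ, SBx r (B a k) := fun a k => SBx.of_cs (hB a k).cs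
  choose r hr using h1
  refine ⟨R + ∑ a, ∑ k, r a k, fun a j k => (hs a j k).mono (by omega), fun a k =>
    (hr a k).mono ?_⟩
  calc r a k ≤ ∑ k, r a k := Finset.single_le_sum (f := fun k => r a k)
        (fun _ _ => Nat.zero_le _) (Finset.mem_univ k)
    _ ≤ ∑ a, ∑ k, r a k := Finset.single_le_sum (f := fun a => ∑ k, r a k)
        (fun _ _ => Nat.zero_le _) (Finset.mem_univ a)
    _ ≤ _ := Nat.le_add_left _ _

lemma Jc_le {f : Fin n → Fin d → Fin d → (Fin d → ℝ) → ℝ} (hc : ∀ a j k, Continuous (f a j k))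
    {R : ℕ} (hs : ∀ a j k, SBx R (f a j k)) {B : Fin n → Fin d → (Fin d → ℝ) → ℝ}
    (hB : ∀ a k, Cc (B a k)) : Jc f B ≤ IPc f f := by
  obtain ⟨R', hs', hBs⟩ := common_R hs hB
  have h1 := Jc_lim hc hs' hB hBs
  have h2 : Tendsto (fun q => IPq q f f) atTop (𝓝 (IPc f f)) :=
    IPq_lim (F := fun _ => f) (G := fun _ => f) (fun a j k => UC.const (hc a j k) (hs' a j k))
      fun a j k => UC.const (hc a j k) (hs' a j k)
  refine cauchy_lim h1 h2 ?_
  filter_upwards [eventually_ge_atTop (R' + 3)] with q hq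
  obtain ⟨l, hl, S, hk, -, -⟩ := tor_ex (R := R' + 1) (q := q) (by omega)
  have hk0 := hk.mono (show R' ≤ R' + 1 by omega)
  have h3 := IP_nonneg ((sm2 q S f : Fin n → Fm d l) - sm2 q S (dq1 q B))
  rw [IP_sub_left, IP_sub_right, IP_sub_right, IP_comm (sm2 q S (dq1 q B)) (sm2 q S f),
    IP_sm hk0 hs', IP_sm hk0 hs', IP_sm hk fun a j k => ((UC_dq1 hB hBs a j k).s q (by omega))]
    at h3
  linarith

/-! ### the limit of the variance -/

/-- **the variances converge** -/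
theorem V_lim (hd : 3 ≤ d) {f : Fin n → Fin d → Fin d → (Fin d → ℝ) → ℝ}
    (hc : ∀ a j k, Continuous (f a j k)) {R : ℕ} (hs : ∀ a j k, SBx R (f a j k))
    (ha : ∀ a j k y, f a j k y = -f a k j y) {ε : ℝ} (hε : 0 < ε) :
    ∃ q0 : ℕ, ∀ q, q0 ≤ q → ∀ (l : ℕ) [NeZero l] (S : ℕ), q ^ 7 ≤ S → S + q ^ 7 ≤ l →
      |vK (q ^ 7) (sm2 q S f : Fin n → Fm d l) - Qc f| ≤ ε := by
  obtain ⟨Fn, hFn⟩ : ∃ Fn, Fn = Real.sqrt (IPc f f) := ⟨_, rfl⟩
  have hFn0 : 0 ≤ Fn := by rw [hFn]; exact Real.sqrt_nonneg _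
  -- upper bound
  have hbdd : BddAbove {r | ∃ B : Fin n → Fin d → (Fin d → ℝ) → ℝ, (∀ a k, Cc (B a k)) ∧
      r = Jc f B} := ⟨IPc f f, by rintro r ⟨B, hB, rfl⟩; exact Jc_le hc hs hB⟩
  have upper : ∀ ε : ℝ, 0 < ε → ∃ q0 : ℕ, ∀ q, q0 ≤ q → ∀ (l : ℕ) [NeZero l] (S : ℕ),
      q ^ 7 ≤ S → S + q ^ 7 ≤ l → vK (q ^ 7) (sm2 q S f : Fin n → Fm d l) ≤ Qc f + ε := by
    intro ε hε
    obtain ⟨η, hη⟩ : ∃ η : ℝ, η = min 1 (ε / (20 * (Fn + 2))) := ⟨_, rfl⟩
    have hη0 : 0 < η := by rw [hη]; positivity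
    have hη1 : η ≤ 1 := by rw [hη]; exact min_le_left _ _
    have hη2 : η * (20 * (Fn + 2)) ≤ ε := by
      have h1 : η ≤ ε / (20 * (Fn + 2)) := by rw [hη]; exact min_le_right _ _
      rwa [le_div_iff₀ (by positivity)] at h1
    obtain ⟨w, hw, hwa, hwe⟩ := exists_w (by omega) hc hs ha hη0
    have h1 : ∀ a j k, ∃ r : ℕ, SBx r (w a j k) := fun a j k => SBx.of_cs (hw a j k).cs
    choose r hr using h1
    obtain ⟨R', hR', hwR, hfR⟩ : ∃ R' : ℕ, R ≤ R' ∧ (∀ a j k, SBx R' (w a j k)) ∧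
        ∀ a j k, SBx R' (f a j k) := by
      refine ⟨R + ∑ a, ∑ j, ∑ k, r a j k, by omega, fun a j k => (hr a j k).mono ?_,
        fun a j k => (hs a j k).mono (by omega)⟩
      calc r a j k ≤ ∑ k, r a j k := Finset.single_le_sum (f := fun k => r a j k)
            (fun _ _ => Nat.zero_le _) (Finset.mem_univ k)
        _ ≤ ∑ j, ∑ k, r a j k := Finset.single_le_sum (f := fun j => ∑ k, r a j k)
            (fun _ _ => Nat.zero_le _) (Finset.mem_univ j)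
        _ ≤ ∑ a, ∑ j, ∑ k, r a j k := Finset.single_le_sum (f := fun a => ∑ j, ∑ k, r a j k)
            (fun _ _ => Nat.zero_le _) (Finset.mem_univ a)
        _ ≤ _ := Nat.le_add_left _ _
    have ucf : ∀ a j k, UC (R' + 2) (fun _ => f a j k) (f a j k) := fun a j k =>
      UC.const (hc a j k) ((hfR a j k).mono (by omega))
    have ucG : ∀ a j k, UC (R' + 2) (fun q => Gq q w a j k) (dc (dv2 w) a j k) := fun a j k =>
      UC_Gq hw hwR a j k
    have uce : ∀ a j k, UC (R' + 2) (fun q y => f a j k y - Lq q (w a j k) y)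
        (fun y => f a j k y - mlap (w a j k) y) := fun a j k =>
      (ucf a j k).sub (UC_Lq (hw a j k) (hwR a j k))
    have la : Tendsto (fun q => IPq q (Gq q w) (Gq q w)) atTop
        (𝓝 (IPc (dc (dv2 w)) (dc (dv2 w)))) := IPq_lim ucG ucG
    have lc : Tendsto (fun q => IPq q f (Gq q w)) atTop (𝓝 (IPc f (dc (dv2 w)))) :=
      IPq_lim (F := fun _ => f) ucf ucG
    have le' : Tendsto (fun q => IPq q (fun a j k y => f a j k y - Lq q (w a j k) y)
        (fun a j k y => f a j k y - Lq q (w a j k) y)) atTop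
        (𝓝 (IPc (fun a j k y => f a j k y - mlap (w a j k) y)
        (fun a j k y => f a j k y - mlap (w a j k) y))) :=
      IPq_lim (F := fun q a j k y => f a j k y - Lq q (w a j k) y)
        (G := fun q a j k y => f a j k y - Lq q (w a j k) y) uce uce
    have lf' : Tendsto (fun q => IPq q f f) atTop (𝓝 (IPc f f)) :=
      IPq_lim (F := fun _ => f) (G := fun _ => f) ucf ucf
    obtain ⟨g, hg⟩ : ∃ g, g = Real.sqrt (IPc (dc (dv2 w)) (dc (dv2 w))) := ⟨_, rfl⟩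
    obtain ⟨h, hh⟩ : ∃ h, h = Real.sqrt (IPc (fun a j k y => f a j k y - mlap (w a j k) y)
        (fun a j k y => f a j k y - mlap (w a j k) y)) := ⟨_, rfl⟩
    have hg0 : 0 ≤ g := by rw [hg]; exact Real.sqrt_nonneg _
    have hh0 : 0 ≤ h := by rw [hh]; exact Real.sqrt_nonneg _
    have hhη : h ≤ η := by
      rw [hh]; exact (Real.sqrt_le_sqrt hwe).trans (by rw [Real.sqrt_sq hη0.le])
    have lag : Tendsto (fun q => Real.sqrt (IPq q (Gq q w) (Gq q w))) atTop (𝓝 g) := by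
      rw [hg]; exact (Real.continuous_sqrt.tendsto _).comp la
    have leh : Tendsto (fun q => Real.sqrt (IPq q (fun a j k y => f a j k y - Lq q (w a j k) y)
        (fun a j k y => f a j k y - Lq q (w a j k) y))) atTop (𝓝 h) := by
      rw [hh]; exact (Real.continuous_sqrt.tendsto _).comp le'
    have lff : Tendsto (fun q => Real.sqrt (IPq q f f)) atTop (𝓝 Fn) := by
      rw [hFn]; exact (Real.continuous_sqrt.tendsto _).comp lf'
    -- facts at fixed q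
    have hWasy : ∀ (q S l : ℕ) [NeZero l] (a : Fin n), Asy ((smW q S w : Fin n → Fm d l) a) := by
      intro q S l _ a j k
      funext x
      show (q : ℝ) ^ 2 * cq d q * w a j k _ = -((q : ℝ) ^ 2 * cq d q * w a k j _)
      rw [hwa a j k]; ring
    have hnG : ∀ (q S l : ℕ) [NeZero l], Ok q S (R' + 2) l →
        nI (dT (fun a => ds2 ((smW q S w : Fin n → Fm d l) a)) : Fin n → Fm d l) =
          Real.sqrt (IPq q (Gq q w) (Gq q w)) := by
      intro q S l _ hk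
      unfold nI
      rw [ds_smW hk hwR, IP_sm hk fun a j k => (ucG a j k).s q hk.q1]
    have hne : ∀ (q S l : ℕ) [NeZero l], Ok q S (R' + 2) l →
        nI (eT2 (sm2 q S f) (smW q S w) : Fin n → Fm d l) =
          Real.sqrt (IPq q (fun a j k y => f a j k y - Lq q (w a j k) y)
            (fun a j k y => f a j k y - Lq q (w a j k) y)) := by
      intro q S l _ hk
      unfold nI
      rw [eT2_smW hk hwR, IP_sm hk fun a j k => (uce a j k).s q hk.q1]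
    have hJ : g ^ 2 - 2 * h * g ≤ Jc f (dv2 w) := by
      have e1 : Tendsto (fun q => Real.sqrt (IPq q (Gq q w) (Gq q w)) ^ 2 - 2 *
          Real.sqrt (IPq q (fun a j k y => f a j k y - Lq q (w a j k) y)
            (fun a j k y => f a j k y - Lq q (w a j k) y)) *
          Real.sqrt (IPq q (Gq q w) (Gq q w))) atTop (𝓝 (g ^ 2 - 2 * h * g)) :=
        (lag.pow 2).sub ((leh.const_mul 2).mul lag)
      have e2 : Tendsto (fun q => 2 * IPq q f (Gq q w) - IPq q (Gq q w) (Gq q w)) atTop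
          (𝓝 (Jc f (dv2 w))) := (lc.const_mul 2).sub la
      refine cauchy_lim e1 e2 ?_
      filter_upwards [eventually_ge_atTop (R' + 4)] with q hq
      obtain ⟨l, hl, S, hk, -, -⟩ := tor_ex (R := R' + 2) (q := q) (by omega)
      have e3 := UBt2 (f := (sm2 q S f : Fin n → Fm d l)) (hWasy q S l)
      rw [hnG q S l hk, hne q S l hk, ds_smW hk hwR, IP_sm hk fun a j k =>
        (ucf a j k).s q hk.q1, IP_sm hk fun a j k => (ucG a j k).s q hk.q1] at e3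
      exact e3
    have hgF : g ≤ Fn + h := by
      refine cauchy_lim lag (lff.add leh) ?_
      filter_upwards [eventually_ge_atTop (R' + 4)] with q hq
      obtain ⟨l, hl, S, hk, -, -⟩ := tor_ex (R := R' + 2) (q := q) (by omega)
      have e3 := UBt3 (f := (sm2 q S f : Fin n → Fm d l)) (hWasy q S l)
      rw [hnG q S l hk, hne q S l hk] at e3
      have e4 : nI (sm2 q S f : Fin n → Fm d l) = Real.sqrt (IPq q f f) := by
        unfold nI
        rw [IP_sm hk fun a j k => (ucf a j k).s q hk.q1]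
      rw [e4] at e3
      exact e3
    have hQ : Jc f (dv2 w) ≤ Qc f := le_csSup hbdd ⟨dv2 w, dv2_Cc hw, rfl⟩
    obtain ⟨q1, hq1⟩ := Pks_small (n := n) hd hc hs hη0
    obtain ⟨q2, hq2⟩ := eventually_atTop.1 ((tendsto_order.1 lag).2 (g + η) (by linarith))
    obtain ⟨q3, hq3⟩ := eventually_atTop.1 ((tendsto_order.1 leh).2 (h + η) (by linarith))
    refine ⟨max (R' + 4) (max q1 (max q2 q3)), fun q hq l _ S h1 h2 => ?_⟩
    simp only [max_le_iff] at hq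
    obtain ⟨k0, k1, k2, k3⟩ := hq
    have hk : Ok q S (R' + 2) l := Ok.of (by omega) h1 h2
    have e1 := UBt (q ^ 7) (f := (sm2 q S f : Fin n → Fm d l)) (w := smW q S w)
      (fun a j k => by
        funext x
        show cq d q * f a j k _ = -(cq d q * f a k j _)
        rw [ha a j k]; ring) (hWasy q S l)
    rw [hnG q S l hk, hne q S l hk] at e1
    have e2 := hq1 q k1 l S h1 h2
    have e3 := hq2 q k2
    have e4 := hq3 q k3
    obtain ⟨V, hV⟩ : ∃ V, V = vK (q ^ 7) (sm2 q S f : Fin n → Fm d l) := ⟨_, rfl⟩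
    rw [← hV] at e1 ⊢
    have hV0 : 0 ≤ V := by rw [hV]; exact vK_nonneg _ _
    have e5 : Real.sqrt V ≤ g + h + 3 * η := by linarith
    have e6 : V ≤ (g + h + 3 * η) ^ 2 := by
      rw [← Real.sq_sqrt hV0]
      exact pow_le_pow_left₀ (Real.sqrt_nonneg _) e5 2
    nlinarith
  -- lower bound
  obtain ⟨p1, hp1⟩ := upper ε hε
  have hQ0 : 0 ≤ Qc f := by
    have h1 : Jc f (fun (_ : Fin n) (_ : Fin d) (_ : Fin d → ℝ) => (0 : ℝ)) = 0 := by
      have h2 : dc (fun (_ : Fin n) (_ : Fin d) (_ : Fin d → ℝ) => (0 : ℝ)) =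
          fun _ _ _ _ => 0 := by
        funext a j k y
        unfold dc pd
        simp
      unfold Jc IPc
      rw [h2]
      simp
    rw [← h1]
    exact le_csSup hbdd ⟨_, fun a k => ⟨contDiff_const, HasCompactSupport.zero⟩, rfl⟩
  obtain ⟨r0, ⟨B, hB, rfl⟩, hr⟩ := exists_lt_of_lt_csSup (s := {r | ∃ B : Fin n → Fin d →
    (Fin d → ℝ) → ℝ, (∀ a k, Cc (B a k)) ∧ r = Jc f B}) (b := Qc f - ε / 2)
    ⟨_, fun _ _ _ => 0, fun a k => ⟨contDiff_const, HasCompactSupport.zero⟩, rfl⟩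
    (by show Qc f - ε / 2 < Qc f; linarith)
  obtain ⟨R', hs', hBs⟩ := common_R hs hB
  have h1 := Jc_lim hc hs' hB hBs
  obtain ⟨τ, hτ⟩ : ∃ τ : ℝ, τ = min 1 (ε / (8 * (Qc f + ε + 2))) := ⟨_, rfl⟩
  have hτ0 : 0 < τ := by rw [hτ]; positivity
  have hτ1 : τ ≤ 1 := by rw [hτ]; exact min_le_left _ _
  have hτ2 : τ * (8 * (Qc f + ε + 2)) ≤ ε := by
    have h1 : τ ≤ ε / (8 * (Qc f + ε + 2)) := by rw [hτ]; exact min_le_right _ _
    rwa [le_div_iff₀ (by positivity)] at h1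
  obtain ⟨q1, hq1⟩ := Pks_small (n := n) hd hc hs hτ0
  obtain ⟨q2, hq2⟩ := eventually_atTop.1 ((tendsto_order.1 h1).1 (Jc f B - ε / 4) (by linarith))
  refine ⟨max (R' + 3) (max p1 (max q1 q2)), fun q hq l _ S h1 h2 => ?_⟩
  simp only [max_le_iff] at hq
  obtain ⟨k0, k1, k2, k3⟩ := hq
  have hk : Ok q S (R' + 1) l := Ok.of (by omega) h1 h2
  have hk0 := hk.mono (show R' ≤ R' + 1 by omega)
  have e1 := hp1 q k1 l S h1 h2
  have e2 := hq1 q k2 l S h1 h2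
  have e3 := hq2 q k3
  have e4 := LBt (q ^ 7) (f := (sm2 q S f : Fin n → Fm d l)) (fun a j k => by
        funext x
        show cq d q * f a j k _ = -(cq d q * f a k j _)
        rw [ha a j k]; ring) (sm1 q S B)
  rw [dT_sm1 hk0 hBs, IP_sm hk0 hs', IP_sm hk fun a j k => ((UC_dq1 hB hBs a j k).s q hk.q1)]
    at e4
  obtain ⟨V, hV⟩ : ∃ V, V = vK (q ^ 7) (sm2 q S f : Fin n → Fm d l) := ⟨_, rfl⟩
  rw [← hV] at e1 e4 ⊢
  have hV0 : 0 ≤ V := by rw [hV]; exact vK_nonneg _ _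
  rw [abs_le]
  refine ⟨?_, by linarith⟩
  have e5 := nI_nonneg (Pks (q ^ 7) (sm2 q S f : Fin n → Fm d l))
  obtain ⟨P, hP⟩ : ∃ P, P = nI (Pks (q ^ 7) (sm2 q S f : Fin n → Fm d l)) := ⟨_, rfl⟩
  rw [← hP] at e2 e4 e5
  obtain ⟨v, hv⟩ : ∃ v, v = Real.sqrt V := ⟨_, rfl⟩
  have hv0 : 0 ≤ v := by rw [hv]; exact Real.sqrt_nonneg _
  have hvV : v ^ 2 = V := by rw [hv]; exact Real.sq_sqrt hV0
  rw [← hv] at e4
  have e6 : v ≤ Qc f + ε + 1 := by nlinarith
  have e7 : (v + P) ^ 2 ≤ V + ε / 4 := by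
    have e8 : P * (2 * v + P) ≤ τ * (2 * (Qc f + ε + 1) + 1) :=
      mul_le_mul e2 (by linarith) (by positivity) hτ0.le
    nlinarith
  linarith

end

end Pool.Agent.Run7.h897
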