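import Mathlib
import Pool.Agent.Run7.h897.Vlim
import Pool.Agent.W793.YM.Rebase

/-!
# The limit on the torus
-/

open MeasureTheory Filter
open scoped ContDiff Topology Pointwise
open Pool.Agent.H906R3.YM Pool.Agent.W793.YM

namespace Pool.Agent.Run7.h897

set_option linter.unusedSectionVars false
set_option linter.unusedVariables false

noncomputable section

/-- sums over the lattice as sums over the torus -/
lemma tsum_tor {d l : ℕ} [NeZero l] {S M : ℕ} {F : (Fin d → ℤ) → ℝ}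
    (hF : ∀ z, F z ≠ 0 → ∀ i, |z i| ≤ M) (h1 : M ≤ S) (h2 : S + M < l) :
    ∑' z, F z = ∑ y : St d l, F fun i => ((wv y i : ℤ) - S) := by
  have hinj : Function.Injective (fun x : St d l => fun i => ((wv x i : ℤ) - S)) := by
    intro x y h
    refine wv_inj ?_
    funext i
    have h3 := congrFun h i
    simp only at h3
    omega
  have h3 := hinj.tsum_eq (f := F) (fun z hz => by
    have h5 := hF z hz
    refine ⟨fun i => ((z i + S).toNat : ZMod l), ?_⟩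
    funext i
    have h7 := abs_le.1 (h5 i)
    have h8 : (z i + S).toNat < l := by omega
    show ((wv (fun i => ((z i + S).toNat : ZMod l)) i : ℕ) : ℤ) - S = z i
    unfold wv
    simp only
    rw [ZMod.val_natCast_of_lt h8]
    omega)
  rw [← h3, tsum_fintype]

lemma abs_exp_sub {x y : ℝ} (hx : 0 ≤ x) (hy : 0 ≤ y) :
    |Real.exp (-(x / 2)) - Real.exp (-(y / 2))| ≤ |x - y| := by
  have h : ∀ u v : ℝ, 0 ≤ u → u ≤ v → |Real.exp (-(u / 2)) - Real.exp (-(v / 2))| ≤ v - u := by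
    intro u v hu huv
    have h1 : Real.exp (-(v / 2)) ≤ Real.exp (-(u / 2)) := Real.exp_le_exp.2 (by linarith)
    rw [abs_of_nonneg (by linarith)]
    have h2 : Real.exp (-(v / 2)) = Real.exp (-(u / 2)) * Real.exp (-((v - u) / 2)) := by
      rw [← Real.exp_add]; congr 1; ring
    have h3 : 1 - (v - u) / 2 ≤ Real.exp (-((v - u) / 2)) := by
      have := Real.add_one_le_exp (-((v - u) / 2))
      linarith
    have h4 : Real.exp (-(u / 2)) ≤ 1 := Real.exp_le_one_iff.2 (by linarith)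
    have h5 : 0 < Real.exp (-(u / 2)) := Real.exp_pos _
    rw [h2]
    nlinarith
  rcases le_total x y with hxy | hxy
  · rw [abs_sub_comm x y, abs_of_nonneg (by linarith : (0 : ℝ) ≤ y - x)]
    exact h x y hx hxy
  · rw [abs_sub_comm, abs_of_nonneg (by linarith : (0 : ℝ) ≤ x - y)]
    exact h y x hy hxy

variable {G : Type*} [Group G] [TopologicalSpace G] [IsTopologicalGroup G] [CompactSpace G]
  [SecondCountableTopology G] [MeasurableSpace G] [BorelSpace G] (μ : Measure G)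
  [IsProbabilityMeasure μ] [μ.IsMulLeftInvariant] [μ.IsMulRightInvariant] [μ.IsInvInvariant]
  {N n : ℕ} {L : LD G N n} {d : ℕ}

lemma Qc_nonneg {f : Fin n → Fin d → Fin d → (Fin d → ℝ) → ℝ}
    (hc : ∀ a j k, Continuous (f a j k)) {R : ℕ} (hs : ∀ a j k, SBx R (f a j k)) : 0 ≤ Qc f := by
  have hbdd : BddAbove {r | ∃ B : Fin n → Fin d → (Fin d → ℝ) → ℝ, (∀ a k, Cc (B a k)) ∧
      r = Jc f B} := ⟨IPc f f, by rintro r ⟨B, hB, rfl⟩; exact Jc_le hc hs hB⟩
  have h1 : Jc f (fun (_ : Fin n) (_ : Fin d) (_ : Fin d → ℝ) => (0 : ℝ)) = 0 := by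
    have h2 : dc (fun (_ : Fin n) (_ : Fin d) (_ : Fin d → ℝ) => (0 : ℝ)) =
        fun _ _ _ _ => 0 := by
      funext a j k y
      unfold dc pd
      simp
    unfold Jc IPc
    rw [h2]
    simp
  rw [← h1]
  exact le_csSup hbdd ⟨_, fun a k => ⟨contDiff_const, HasCompactSupport.zero⟩, rfl⟩

/-- the errors -/
lemma errs (hd : 3 ≤ d) {T : ℝ} (hT : 0 < T) {C : ℝ} (hC : 0 < C) {ε : ℝ} (hε : 0 < ε) :
    ∃ q0 : ℕ, ∀ q : ℕ, q0 ≤ q → ∀ b : ℝ, (q : ℝ) ^ (15 * d + 22) ≤ b → ∀ ν : ℝ, 0 ≤ ν →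
      ν ^ 2 ≤ (q : ℝ) ^ d * T ^ 2 →
      C * (ν / Real.sqrt (Real.sqrt ((q ^ 7 : ℕ) : ℝ) ^ (d - 2)) +
        ((q ^ 7 : ℕ) : ℝ) ^ (2 * d + 3) * (1 + ν) ^ 2 / b) ≤ ε := by
  obtain ⟨q1, hq1⟩ := exists_nat_ge ((2 * C * T / ε) ^ 4)
  obtain ⟨q2, hq2⟩ := exists_nat_ge (2 * C * (2 * (1 + T ^ 2)) / ε)
  refine ⟨max 1 (max q1 q2), fun q hq b hb ν hν hν2 => ?_⟩
  simp only [max_le_iff] at hq
  obtain ⟨k0, k1, k2⟩ := hq
  have g0 : (1 : ℝ) ≤ q := by exact_mod_cast k0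
  have g1 : (2 * C * T / ε) ^ 4 ≤ q := hq1.trans (by exact_mod_cast k1)
  have g2 : 2 * C * (2 * (1 + T ^ 2)) / ε ≤ q := hq2.trans (by exact_mod_cast k2)
  have hq0 : (0 : ℝ) < q := by linarith
  obtain ⟨s, hs⟩ : ∃ s : ℝ, s = Real.sqrt q := ⟨_, rfl⟩
  have hs1 : 1 ≤ s := by rw [hs]; exact Real.one_le_sqrt.2 g0
  have hs0 : 0 < s := by linarith
  have hsq : s ^ 2 = q := by rw [hs]; exact Real.sq_sqrt hq0.le
  have hK : Real.sqrt ((q ^ 7 : ℕ) : ℝ) = s ^ 7 := by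
    push_cast
    rw [← hsq, ← pow_mul, show 2 * 7 = 7 * 2 by norm_num, pow_mul, Real.sqrt_sq (by positivity)]
  rw [hK]
  have hb0 : 0 < b := lt_of_lt_of_le (by positivity) hb
  -- the first error
  have e1 : C * (ν / Real.sqrt ((s ^ 7) ^ (d - 2))) ≤ ε / 2 := by
    obtain ⟨r, hr⟩ : ∃ r, r = Real.sqrt ((s ^ 7) ^ (d - 2)) := ⟨_, rfl⟩
    have hr0 : 0 < r := by rw [hr]; exact Real.sqrt_pos.2 (by positivity)
    have hr2 : r ^ 2 = (s ^ 7) ^ (d - 2) := by rw [hr]; exact Real.sq_sqrt (by positivity)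
    rw [← hr]
    have h1 : (ν / r) ^ 2 ≤ T ^ 2 / s := by
      rw [div_pow, hr2, div_le_div_iff₀ (by positivity) hs0]
      have h2 : ν ^ 2 * s ≤ (q : ℝ) ^ d * T ^ 2 * s := mul_le_mul_of_nonneg_right hν2 hs0.le
      refine h2.trans ?_
      rw [← hsq, ← pow_mul]
      obtain ⟨e, he⟩ : ∃ e, d = e + 3 := ⟨d - 3, by omega⟩
      subst he
      have h3 : e + 3 - 2 = e + 1 := by omega
      rw [h3, ← pow_mul]
      have h4 : s ^ (2 * (e + 3)) * T ^ 2 * s = T ^ 2 * s ^ (2 * e + 7) := by ring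
      rw [h4]
      refine mul_le_mul_of_nonneg_left ?_ (sq_nonneg T)
      exact pow_le_pow_right₀ hs1 (by omega)
    obtain ⟨t, ht⟩ : ∃ t : ℝ, t = Real.sqrt s := ⟨_, rfl⟩
    have ht0 : 0 < t := by rw [ht]; exact Real.sqrt_pos.2 hs0
    have ht2 : t ^ 2 = s := by rw [ht]; exact Real.sq_sqrt hs0.le
    have h5 : 2 * C * T / ε ≤ t := by
      have h6 : (2 * C * T / ε) ^ 4 ≤ t ^ 4 := by
        have : t ^ 4 = q := by
          rw [show t ^ 4 = (t ^ 2) ^ 2 by ring, ht2, hsq]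
        rw [this]; exact g1
      exact (pow_le_pow_iff_left₀ (by positivity) ht0.le (by norm_num)).1 h6
    have h6 : ν / r ≤ T / t := by
      have h7 : (ν / r) ^ 2 ≤ (T / t) ^ 2 := by rw [div_pow T t, ht2]; exact h1
      exact (pow_le_pow_iff_left₀ (by positivity) (by positivity) two_ne_zero).1 h7
    calc C * (ν / r) ≤ C * (T / t) := mul_le_mul_of_nonneg_left h6 hC.le
      _ ≤ ε / 2 := by
          rw [mul_div_assoc', div_le_div_iff₀ ht0 (by norm_num)]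
          rw [div_le_iff₀ hε] at h5
          linarith
  have e2 : C * (((q ^ 7 : ℕ) : ℝ) ^ (2 * d + 3) * (1 + ν) ^ 2 / b) ≤ ε / 2 := by
    have h1 : (1 + ν) ^ 2 ≤ 2 * (1 + T ^ 2) * (q : ℝ) ^ d := by
      have h2 : (1 + ν) ^ 2 ≤ 2 * (1 + ν ^ 2) := by nlinarith [sq_nonneg (1 - ν)]
      have h3 : (1 : ℝ) ≤ (q : ℝ) ^ d := one_le_pow₀ g0
      nlinarith
    have h2 : ((q ^ 7 : ℕ) : ℝ) ^ (2 * d + 3) = (q : ℝ) ^ (14 * d + 21) := by
      push_cast
      rw [← pow_mul]; congr 1; ring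
    rw [h2]
    have h3 : (q : ℝ) ^ (14 * d + 21) * (1 + ν) ^ 2 / b ≤ 2 * (1 + T ^ 2) / q := by
      rw [div_le_div_iff₀ hb0 hq0]
      calc (q : ℝ) ^ (14 * d + 21) * (1 + ν) ^ 2 * q ≤
          (q : ℝ) ^ (14 * d + 21) * (2 * (1 + T ^ 2) * (q : ℝ) ^ d) * q := by gcongr
        _ = 2 * (1 + T ^ 2) * (q : ℝ) ^ (15 * d + 22) := by
            rw [show 15 * d + 22 = (14 * d + 21) + d + 1 by ring, pow_add, pow_add, pow_one]
            ring
        _ ≤ 2 * (1 + T ^ 2) * b := mul_le_mul_of_nonneg_left hb (by positivity)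
    calc _ ≤ C * (2 * (1 + T ^ 2) / q) := mul_le_mul_of_nonneg_left h3 hC.le
      _ ≤ ε / 2 := by
          rw [mul_div_assoc', div_le_div_iff₀ hq0 (by norm_num)]
          rw [div_le_iff₀ hε] at g2
          linarith
  rw [mul_add]
  linarith

/-- **The limit on the torus.** -/
theorem tor_lim (hd : 3 ≤ d) {f : Fin n → Fin d → Fin d → (Fin d → ℝ) → ℝ}
    (hc : ∀ a j k, Continuous (f a j k)) {R : ℕ} (hs : ∀ a j k, SBx R (f a j k))
    (ha : ∀ a j k y, f a j k y = -f a k j y) {ε : ℝ} (hε : 0 < ε) :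
    ∃ q0 : ℕ, ∀ q, q0 ≤ q → ∀ b : ℝ, (q : ℝ) ^ (15 * d + 22) ≤ b →
      ∀ γ : (Fin d → ℤ) → List (Fin d × Bool), (∀ x, dest 0 (γ x) = x) →
      (∀ x, (γ x).length ≤ q ^ 5 * (1 + ∑ i, (x i).natAbs)) →
      ∀ (m : ℕ) [NeZero m], 3 * q ^ 7 + 5 < 2 * m →
      |EX μ L (b ^ 4) (fun U : Ed d (2 * m) → G => Real.cos (b ^ 2 *
          Fh L (sm2 q (q ^ 7 + 2 + R * q) f) (fun y => hol (lf U)
            (fun _ => ((q ^ 7 + 2 + R * q : ℕ) : ℤ))
            (γ fun i => (wv y i : ℤ) - ((q ^ 7 + 2 + R * q : ℕ) : ℤ))) U)) -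
        Real.exp (-(Qc f / 2))| ≤ ε ∧
      |EX μ L (b ^ 4) (fun U : Ed d (2 * m) → G => Real.sin (b ^ 2 *
          Fh L (sm2 q (q ^ 7 + 2 + R * q) f) (fun y => hol (lf U)
            (fun _ => ((q ^ 7 + 2 + R * q : ℕ) : ℤ))
            (γ fun i => (wv y i : ℤ) - ((q ^ 7 + 2 + R * q : ℕ) : ℤ))) U))| ≤ ε := by
  obtain ⟨C, hC, hrb⟩ := lattice_rb μ (L := L) hd
  obtain ⟨T, hT, q1, hq1⟩ := RSabs_bdd hc hs
  obtain ⟨q2, hq2⟩ := errs hd hT hC (half_pos hε)
  obtain ⟨q3, hq3⟩ := V_lim hd hc hs ha (half_pos hε)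
  refine ⟨max (2 * R + 3) (max (1 + d * R) (max q1 (max q2 q3))),
    fun q hq b hb γ hγ1 hγ2 m _ hm => ?_⟩
  simp only [max_le_iff] at hq
  obtain ⟨k0, k0', k1, k2, k3⟩ := hq
  have hq1' : 1 ≤ q := by omega
  have hqr : (1 : ℝ) ≤ q := by exact_mod_cast hq1'
  have h27 : q ^ 2 ≤ q ^ 7 := Nat.pow_le_pow_right (by omega) (by norm_num)
  have hRq : 2 * (R * q) + q ≤ q ^ 7 := by
    calc 2 * (R * q) + q = (2 * R + 1) * q := by ring
      _ ≤ q * q := Nat.mul_le_mul_right q (by omega)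
      _ = q ^ 2 := by ring
      _ ≤ q ^ 7 := h27
  obtain ⟨K, hK⟩ : ∃ K, K = q ^ 7 := ⟨_, rfl⟩
  obtain ⟨S, hS⟩ : ∃ S, S = q ^ 7 + 2 + R * q := ⟨_, rfl⟩
  rw [← hS]
  have hK1 : 1 ≤ K := by rw [hK]; exact Nat.one_le_pow _ _ (by omega)
  have hk : Ok q S R (2 * m) := Ok.of (by omega) (by rw [hS]; omega) (by rw [hS]; omega)
  have hb1 : 1 ≤ b := le_trans (one_le_pow₀ hqr) hb
  have hq0 : (0 : ℝ) < q := by linarith
  -- supports
  have hsup : ∀ (φ : (Fin d → ℝ) → ℝ), SBx R φ → ∀ y : St d (2 * m), smp q S φ y ≠ 0 →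
      ∀ i, S ≤ wv y i + R * q ∧ wv y i ≤ S + R * q := by
    intro φ hφ y hy i
    have h1 := hφ _ hy i
    rw [abs_div, abs_of_pos hq0, div_le_iff₀ hq0, abs_le] at h1
    obtain ⟨h2, h3⟩ := h1
    constructor
    · have : (S : ℝ) ≤ wv y i + R * q := by linarith
      exact_mod_cast this
    · have : (wv y i : ℝ) ≤ S + R * q := by linarith
      exact_mod_cast this
  have hne : ∀ a j k (y : St d (2 * m)), (sm2 q S f : Fin n → Fm d (2 * m)) a j k y ≠ 0 →
      ∀ i, S ≤ wv y i + R * q ∧ wv y i ≤ S + R * q := by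
    intro a j k y hy
    exact hsup _ (hs a j k) y (right_ne_zero_of_mul hy)
  have hSW : ∀ a j k, SW (K + 2) (2 * K + 2) ((sm2 q S f : Fin n → Fm d (2 * m)) a j k) := by
    intro a j k y hy i
    have h1 := hne a j k y hy i
    rw [hK]
    omega
  have hasy : ∀ a, Asy ((sm2 q S f : Fin n → Fm d (2 * m)) a) := by
    intro a j k
    funext x
    show cq d q * f a j k _ = -(cq d q * f a k j _)
    rw [ha a j k]; ring
  have key := hrb b hb1 m K hK1 (by rw [hK]; exact hm) (sm2 q S f) hasy hSW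
    (fun _ => (S : ℤ)) (fun y => γ fun i => (wv y i : ℤ) - (S : ℤ))
    (fun i => by omega) (fun a j k y hy => by
      have h1 := hne a j k y hy
      constructor
      · refine (hγ2 _).trans ?_
        have h2 : ∑ i : Fin d, ((wv y i : ℤ) - (S : ℤ)).natAbs ≤ d * (R * q) := by
          calc ∑ i : Fin d, ((wv y i : ℤ) - (S : ℤ)).natAbs ≤ ∑ _i : Fin d, R * q :=
                Finset.sum_le_sum fun i _ => by have := h1 i; omega
            _ = d * (R * q) := by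
                rw [Finset.sum_const, Finset.card_univ, Fintype.card_fin, smul_eq_mul]
        calc q ^ 5 * (1 + ∑ i : Fin d, ((wv y i : ℤ) - (S : ℤ)).natAbs) ≤
            q ^ 5 * (1 + d * (R * q)) := Nat.mul_le_mul_left _ (by omega)
          _ ≤ q ^ 5 * (q * q) := by
              refine Nat.mul_le_mul_left _ ?_
              calc 1 + d * (R * q) ≤ q + d * (R * q) := by omega
                _ = (1 + d * R) * q := by ring
                _ ≤ q * q := Nat.mul_le_mul_right q k0'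
          _ = K := by rw [hK]; ring
      · have h2 : dest (fun _ => (S : ℤ)) (γ fun i => (wv y i : ℤ) - (S : ℤ)) =
            fun i => (wv y i : ℤ) := by
          have h3 := dest_trans (fun _ : Fin d => (S : ℤ)) 0 (γ fun i => (wv y i : ℤ) - (S : ℤ))
          rw [zero_add, hγ1] at h3
          rw [h3]
          funext i
          simp
        rw [h2]
        have h3 := ct_wv y
        rw [← h3]
        funext i
        unfold zt ct
        simp [wv])
  have hN0 := N1_nonneg (sm2 q S f : Fin n → Fm d (2 * m))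
  have hN2 := N1_sq hk hs (n := n)
  obtain ⟨t0, tT⟩ := hq1 q k1
  have hN3 : N1 (sm2 q S f : Fin n → Fm d (2 * m)) ^ 2 ≤ (q : ℝ) ^ d * T ^ 2 := by
    rw [hN2]
    exact mul_le_mul_of_nonneg_left (pow_le_pow_left₀ t0 tT 2) (by positivity)
  have herr := hq2 q k2 b hb _ hN0 hN3
  rw [hK] at key
  have hV := hq3 q k3 (2 * m) S (by rw [hS]; omega) (by rw [hS]; omega)
  have hE := abs_exp_sub (vK_nonneg (q ^ 7) (sm2 q S f : Fin n → Fm d (2 * m)))
    (Qc_nonneg hc hs)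
  constructor
  · have h1 := key.1.trans herr
    calc _ ≤ |_ - Real.exp (-(vK (q ^ 7) (sm2 q S f : Fin n → Fm d (2 * m)) / 2))| +
        |Real.exp (-(vK (q ^ 7) (sm2 q S f : Fin n → Fm d (2 * m)) / 2)) -
          Real.exp (-(Qc f / 2))| := abs_sub_le _ _ _
      _ ≤ ε := by linarith
  · exact (key.2.trans herr).trans (by linarith)

end

end Pool.Agent.Run7.h897
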